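import Mathlib

/-!
# Polynomial arguments
-/

open Polynomial

namespace Pool.Agent.Helper912

/-- If a linear map vanishes on the values of a polynomial at infinitely many rational numbers,
then it vanishes on its coefficients. -/
lemma coeff_eq_zero_of_infinite {A M : Type*} [CommRing A] [Algebra ℚ A] [AddCommGroup M]
    [Module ℚ M] (Ψ : A →ₗ[ℚ] M) (F : A[X]) (S : Set ℚ) (hS : S.Infinite)
    (h : ∀ t ∈ S, Ψ (F.eval (algebraMap ℚ A t)) = 0) (j : ℕ) : Ψ (F.coeff j) = 0 := by
  rw [← Module.forall_dual_apply_eq_zero_iff ℚ (Ψ (F.coeff j))]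
  intro ψ
  let G : ℚ[X] := ∑ i ∈ Finset.range (F.natDegree + 1), monomial i (ψ (Ψ (F.coeff i)))
  have hG : ∀ t : ℚ, G.eval t = ψ (Ψ (F.eval (algebraMap ℚ A t))) := by
    intro t
    conv_rhs => rw [Polynomial.eval_eq_sum_range, map_sum, map_sum]
    rw [Polynomial.eval_finsetSum]
    apply Finset.sum_congr rfl
    intro i _
    rw [Polynomial.eval_monomial, ← map_pow, mul_comm (F.coeff i), ← Algebra.smul_def, map_smul,
      map_smul, smul_eq_mul, mul_comm]
  have hG0 : G = 0 := by
    apply Polynomial.eq_zero_of_infinite_isRoot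
    apply hS.mono
    intro t ht
    change G.eval t = 0
    rw [hG, h t ht, map_zero]
  have h1 : ∀ i, G.coeff i = if i < F.natDegree + 1 then ψ (Ψ (F.coeff i)) else 0 := by
    intro i
    rw [Polynomial.finsetSum_coeff]
    simp only [Polynomial.coeff_monomial]
    rw [Finset.sum_ite_eq']
    simp only [Finset.mem_range]
  by_cases hj : j < F.natDegree + 1
  · have := h1 j
    rw [hG0, if_pos hj] at this
    simpa using this.symm
  · rw [Polynomial.coeff_eq_zero_of_natDegree_lt (by omega), map_zero, map_zero]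

lemma coeff_mem_of_infinite {A : Type*} [CommRing A] [Algebra ℚ A] (N : Submodule ℚ A) (F : A[X])
    (S : Set ℚ) (hS : S.Infinite) (h : ∀ t ∈ S, F.eval (algebraMap ℚ A t) ∈ N) (j : ℕ) :
    F.coeff j ∈ N := by
  have := coeff_eq_zero_of_infinite N.mkQ F S hS
    (fun t ht => (Submodule.Quotient.mk_eq_zero N).mpr (h t ht)) j
  exact (Submodule.Quotient.mk_eq_zero N).mp this

/-- If a linear map is constant on the values of a polynomial at the natural numbers, then it
vanishes on the linear coefficient. -/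
lemma coeff_one_eq_zero {A M : Type*} [CommRing A] [Algebra ℚ A] [AddCommGroup M]
    [Module ℚ M] (Ψ : A →ₗ[ℚ] M) (F : A[X]) (m : M) (h : ∀ t : ℕ, Ψ (F.eval (t : A)) = m) :
    Ψ (F.coeff 1) = 0 := by
  have h0 := h 0
  have h1 := coeff_eq_zero_of_infinite Ψ (F - C (F.coeff 0)) (Set.range ((↑) : ℕ → ℚ))
    (Set.infinite_range_of_injective Nat.cast_injective) ?_ 1
  · simpa using h1
  · rintro _ ⟨t, rfl⟩
    rw [map_natCast, Polynomial.eval_sub, map_sub, h t, Polynomial.eval_C,
      Polynomial.coeff_zero_eq_eval_zero]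
    have : Ψ (F.eval 0) = m := by simpa using h0
    rw [this, sub_self]

end Pool.Agent.Helper912
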