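import Pool.Agent.Helper912_CZ.Defs

/-!
# Canonical classes of constant cycle subvarieties of the middle dimension
-/

open CategoryTheory AlgebraicGeometry Pool.Agent.H914

namespace Pool.Agent.Helper912

/-- The closed subvariety of `X` with generic point `z`. -/
def ClosureOf {X : VarC} (z : Pt X) : Set (Pt X) := closure {z}

/-- The closure of `z` is a constant cycle subvariety of codimension `n`. -/
def ConstSub (X : VarC) (n : ℕ) (z : Pt X) : Prop :=
  IsCodim X n z ∧ ConstCycle X.str (ClosureOf z)

/-- The element `o` is the class of the points of a constant cycle subvariety of codimension `n`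
(for example a rationally connected one) whose self-intersection is nonzero. -/
def ChowTheory.Canonical (C : ChowTheory) (X : VarC) (n : ℕ) (o : C.CH X) : Prop :=
  ∃ z y : Pt X, ConstSub X n z ∧ C.deg X (C.cl X z * C.cl X z) ≠ 0 ∧
    y ∈ ClosureOf z ∧ ClosedPt y ∧ C.cl X y = o

/-- The classes of any `m` constant cycle subvarieties of codimension `n` are linearly dependent
modulo numerical equivalence. -/
def ChowTheory.NumDependent (C : ChowTheory) (X : VarC) (n m : ℕ) : Prop :=
  ∀ z : Fin m → Pt X, (∀ i, ConstSub X n (z i)) → ∃ a : Fin m → ℚ, a ≠ 0 ∧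
    ∀ b ∈ C.gr X n, C.deg X ((∑ i, a i • C.cl X (z i)) * b) = 0

end Pool.Agent.Helper912
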