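import Pool.Agent.Helper912_CZ.Rat

/-!
# Intersection theory: first properties
-/

open CategoryTheory AlgebraicGeometry Pool.Agent.H914

namespace Pool.Agent.Helper912

/-! ## First properties -/

lemma isClosed_singleton_of_isCodim {X : SmVar.{0} ℂ} {x : X.X} (h : IsCodim X X.dim x) :
    IsClosed {x} := by
  have h0 : Order.height x = 0 := by
    rw [IsCodim] at h
    have : Order.height x + (X.dim : ℕ∞) = 0 + X.dim := by rw [h, zero_add]
    exact ENat.add_left_injective_of_ne_top (ENat.natCast_ne_top _) this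
  rw [Order.height_eq_zero] at h0
  rw [← closure_eq_iff_isClosed]
  apply Set.eq_singleton_iff_unique_mem.mpr
  refine ⟨subset_closure rfl, fun y hy => ?_⟩
  have h1 : x ⤳ y := specializes_iff_mem_closure.mpr hy
  have h2 : y ⤳ x := h0 h1
  exact (h2.antisymm h1).eq

lemma isCodim_of_isClosed_singleton {X : SmVar.{0} ℂ} {x : X.X} (h : IsClosed {x}) :
    IsCodim X X.dim x := by
  have h0 : Order.height x = 0 := by
    rw [Order.height_eq_zero]
    intro y hy
    have h1 : x ⤳ y := hy
    have h2 : y ∈ closure {x} := specializes_iff_mem_closure.mp h1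
    rw [h.closure_eq, Set.mem_singleton_iff] at h2
    rw [h2]
  rw [IsCodim, h0, zero_add]

namespace ChowData

variable (C : ChowData) {X : SmVar.{0} ℂ}

lemma supp_mono {p : ℕ} {S T : Set X.X} (h : S ⊆ T) : C.supp X p S ≤ C.supp X p T := by
  apply Submodule.span_mono
  rintro z ⟨x, hx, hx', rfl⟩
  exact ⟨x, h hx, hx', rfl⟩

lemma supp_le_gr {p : ℕ} {S : Set X.X} : C.supp X p S ≤ C.gr X p :=
  C.supp_mono (Set.subset_univ _)

lemma cl_mem_supp {p : ℕ} {S : Set X.X} {x : X.X} (hx : x ∈ S) (hp : IsCodim X p x) :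
    C.cl X x ∈ C.supp X p S :=
  Submodule.subset_span ⟨x, hx, hp, rfl⟩

end ChowData

namespace ChowTheory

variable (C : ChowTheory) {X : SmVar.{0} ℂ}

lemma one_mem (X : SmVar.{0} ℂ) : (1 : C.CH X) ∈ C.gr X 0 := (C.unitClass X).2

lemma cl_generic (X : SmVar.{0} ℂ) : C.cl X (genericPoint X.X) = 1 := (C.unitClass X).1

lemma pull_id (X : SmVar.{0} ℂ) (a : C.CH X) : C.pull (𝟙 X) a = a := C.pullFunctor.1 X a

lemma pull_comp {X Y Z : SmVar.{0} ℂ} (f : X ⟶ Y) (g : Y ⟶ Z) (a : C.CH Z) :
    C.pull (f ≫ g) a = C.pull f (C.pull g a) := C.pullFunctor.2 X Y Z f g a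

lemma push_id (X : SmVar.{0} ℂ) (a : C.CH X) : C.push (𝟙 X) a = a := C.pushFunctor.1 X a

lemma push_comp {X Y Z : SmVar.{0} ℂ} (f : X ⟶ Y) (g : Y ⟶ Z) (a : C.CH X) :
    C.push (f ≫ g) a = C.push g (C.push f a) := C.pushFunctor.2 X Y Z f g a

lemma proj {X Y : SmVar.{0} ℂ} (f : X ⟶ Y) (a : C.CH X) (b : C.CH Y) :
    C.push f (a * C.pull f b) = C.push f a * b := C.projection X Y f a b

lemma deg_closed (X : SmVar.{0} ℂ) (x : X.X) (hx : IsClosed {x}) : C.deg X (C.cl X x) = 1 :=
  C.degree.1 X x hx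

lemma pull_mem_gr {X Y : SmVar.{0} ℂ} (f : X ⟶ Y) {p : ℕ} {b : C.CH Y} (hb : b ∈ C.gr Y p) :
    C.pull f b ∈ C.gr X p :=
  C.pullSupp X Y f p Set.univ b isClosed_univ hb

lemma mul_mem_gr {p q : ℕ} {a b : C.CH X} (ha : a ∈ C.gr X p) (hb : b ∈ C.gr X q) :
    a * b ∈ C.gr X (p + q) := by
  have := C.mulSupp X _ _ _ _ _ _ isClosed_univ isClosed_univ ha hb
  rwa [Set.inter_univ] at this

lemma pow_mem_gr {p : ℕ} {a : C.CH X} (ha : a ∈ C.gr X p) (k : ℕ) : a ^ k ∈ C.gr X (k * p) := by
  induction k with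
  | zero => simpa using C.one_mem X
  | succ k ih =>
    rw [pow_succ, Nat.succ_mul]
    exact C.mul_mem_gr ih ha

lemma prod_mem_gr {ι : Type*} (s : Finset ι) (f : ι → C.CH X) (d : ι → ℕ)
    (h : ∀ i ∈ s, f i ∈ C.gr X (d i)) : ∏ i ∈ s, f i ∈ C.gr X (∑ i ∈ s, d i) := by
  classical
  induction s using Finset.induction_on with
  | empty => simpa using C.one_mem X
  | insert i s hi ih =>
    rw [Finset.prod_insert hi, Finset.sum_insert hi]
    exact C.mul_mem_gr (h i (Finset.mem_insert_self _ _))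
      (ih fun j hj => h j (Finset.mem_insert_of_mem hj))

/-- Rationally equivalent closed points have the same class. -/
lemma cl_eq_of_ratEq {x y : X.X} (hx : IsClosed {x}) (hy : IsClosed {y})
    (h : RatEq X.str x y) : C.cl X x = C.cl X y := by
  classical
  have h1 := (C.zeroCycles X (Finsupp.single x 1 - Finsupp.single y 1) ?_).mpr h
  · rw [ChowData.cycleClass, map_sub] at h1
    simpa [sub_eq_zero] using h1
  · intro z hz
    have := Finsupp.support_sub hz
    rw [Finset.mem_union] at this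
    rcases this with h2 | h2
    · rw [Finset.mem_singleton.mp (Finsupp.support_single_subset h2)]
      exact hx
    · rw [Finset.mem_singleton.mp (Finsupp.support_single_subset h2)]
      exact hy

/-- A zero-cycle supported on a constant cycle subset is a multiple of the class of a point. -/
lemma eq_deg_smul_of_constCycle {T : Set X.X} (hT : ConstCycle X.str T) {y : X.X} (hy : y ∈ T)
    (hy' : IsClosed {y}) {a : C.CH X} (ha : a ∈ C.supp X X.dim T) :
    a = C.deg X a • C.cl X y := by
  induction ha using Submodule.span_induction with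
  | mem z hz =>
    obtain ⟨x, hx, hx', rfl⟩ := hz
    have h1 := isClosed_singleton_of_isCodim hx'
    rw [C.deg_closed X x h1, one_smul]
    exact C.cl_eq_of_ratEq h1 hy' (hT x y hx hy h1 hy')
  | zero => rw [map_zero, zero_smul]
  | add a b _ _ ha hb => rw [map_add, add_smul, ← ha, ← hb]
  | smul q a _ ha => rw [map_smul, smul_eq_mul, mul_smul, ← ha]

/-! ## Isomorphisms -/

lemma isIso_hom {X Y : SmVar.{0} ℂ} (e : X ≅ Y) : IsIso e.hom.hom :=
  ⟨e.inv.hom, congrArg SmVar.Hom.hom e.hom_inv_id, congrArg SmVar.Hom.hom e.inv_hom_id⟩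

lemma homDegree_of_bijective {K L : Type} [Field K] [CommRing L] (φ : K →+* L)
    (h : Function.Bijective φ) : homDegree φ = 1 := by
  let _ : Algebra K L := φ.toAlgebra
  have h3 : Function.Bijective (algebraMap K L) := h
  change Module.finrank K L = 1
  exact (LinearEquiv.finrank_eq (AlgEquiv.ofBijective (Algebra.ofId _ _) h3).toLinearEquiv).symm.trans
    (Module.finrank_self _)

lemma resDegree_of_isIso {X Y : Scheme.{0}} (f : X ⟶ Y) [IsIso f] (x : X) :
    resDegree f x = 1 := by
  have h1 : IsIso (f.residueFieldMap x) := inferInstance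
  have h2 : Function.Bijective (f.residueFieldMap x).hom :=
    (ConcreteCategory.isIso_iff_bijective (f.residueFieldMap x)).mp h1
  exact homDegree_of_bijective _ h2

lemma push_iso_cl {X Y : SmVar.{0} ℂ} (e : X ≅ Y) (x : X.X) :
    C.push e.hom (C.cl X x) = C.cl Y (e.hom.hom x) := by
  have := isIso_hom e
  rw [C.pushClass, resDegree_of_isIso, Nat.cast_one, one_smul]
  rfl

lemma map_genericPoint_of_iso {X Y : SmVar.{0} ℂ} (e : X ≅ Y) :
    e.hom.hom (genericPoint X.X) = genericPoint Y.X := by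
  have := isIso_hom e
  have h1 := (genericPoint_spec X.X).image e.hom.hom.continuous
  have h2 : Function.Surjective e.hom.hom := e.hom.hom.surjective
  rw [Set.image_univ, h2.range_eq, closure_univ] at h1
  exact h1.eq (genericPoint_spec Y.X)

lemma push_iso_one {X Y : SmVar.{0} ℂ} (e : X ≅ Y) : C.push e.hom 1 = 1 := by
  rw [← C.cl_generic X, push_iso_cl, map_genericPoint_of_iso, C.cl_generic]

lemma push_iso_pull {X Y : SmVar.{0} ℂ} (e : X ≅ Y) (b : C.CH Y) :
    C.push e.hom (C.pull e.hom b) = b := by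
  have := C.proj e.hom 1 b
  rwa [one_mul, push_iso_one, one_mul] at this

lemma push_iso {X Y : SmVar.{0} ℂ} (e : X ≅ Y) (a : C.CH X) :
    C.push e.hom a = C.pull e.inv a := by
  rw [← C.push_iso_pull e (C.pull e.inv a), ← C.pull_comp, e.hom_inv_id, C.pull_id]

/-! ## Closed points -/

omit C in
lemma isClosed_map {X Y : SmVar.{0} ℂ} (f : X ⟶ Y) {x : X.X} (hx : IsClosed {x}) :
    IsClosed {f.hom x} := by
  have hJ : JacobsonSpace Y.X := LocallyOfFiniteType.jacobsonSpace Y.str
  have h1 : LocallyOfFiniteType (f.hom ≫ Y.str) := by rw [f.w]; infer_instance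
  have h2 : LocallyOfFiniteType f.hom := locallyOfFiniteType_of_comp f.hom Y.str
  exact f.hom.closePoints_subset_preimage_closedPoints hx

omit C in
lemma resDegree_of_isClosed {X Y : SmVar.{0} ℂ} (f : X ⟶ Y) {x : X.X} (hx : IsClosed {x}) :
    resDegree f.hom x = 1 := by
  have hy := isClosed_map f hx
  let e₁ := residueFieldIsoBase X.str x hx
  let e₂ := residueFieldIsoBase Y.str (f.hom x) hy
  have h1 : e₂.inv ≫ f.hom.residueFieldMap x = e₁.inv := by
    apply Spec.map_injective
    rw [Spec.map_comp, SpecMap_residueFieldIsoBase_inv, SpecMap_residueFieldIsoBase_inv,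
      Scheme.Hom.SpecMap_residueFieldMap_fromSpecResidueField_assoc, f.w]
  have h2 : f.hom.residueFieldMap x = e₂.hom ≫ e₁.inv := by
    rw [← h1, Iso.hom_inv_id_assoc]
  have h3 : IsIso (f.hom.residueFieldMap x) := by rw [h2]; infer_instance
  exact homDegree_of_bijective _
    ((ConcreteCategory.isIso_iff_bijective (f.hom.residueFieldMap x)).mp h3)

lemma push_cl_closed {X Y : SmVar.{0} ℂ} (f : X ⟶ Y) {x : X.X} (hx : IsClosed {x}) :
    C.push f (C.cl X x) = C.cl Y (f.hom x) := by
  rw [C.pushClass, resDegree_of_isClosed f hx, Nat.cast_one, one_smul]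
  rfl

/-- Push-forward preserves zero-cycles and degrees. -/
lemma push_mem_top {X Y : SmVar.{0} ℂ} (f : X ⟶ Y) {a : C.CH X} (ha : a ∈ C.gr X X.dim) :
    C.push f a ∈ C.gr Y Y.dim ∧ C.deg Y (C.push f a) = C.deg X a := by
  induction ha using Submodule.span_induction with
  | mem z hz =>
    obtain ⟨x, -, hx, rfl⟩ := hz
    have h1 := isClosed_singleton_of_isCodim hx
    have h2 := isClosed_map f h1
    rw [C.push_cl_closed f h1, C.deg_closed Y _ h2, C.deg_closed X _ h1]
    exact ⟨C.cl_mem_supp trivial (isCodim_of_isClosed_singleton h2), rfl⟩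
  | zero => simp
  | add a b _ _ ha hb =>
    rw [map_add, map_add, map_add, ha.2, hb.2]
    exact ⟨add_mem ha.1 hb.1, rfl⟩
  | smul q a _ ha =>
    rw [map_smul, map_smul, map_smul, ha.2]
    exact ⟨Submodule.smul_mem _ _ ha.1, rfl⟩

end ChowTheory

end Pool.Agent.Helper912
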