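import Mathlib
import Pool.Agent.H914R2.Var

/-!
# Zero-cycles, rational equivalence and intersection theory over the complex numbers

For a proper scheme `X` over `ℂ`, the group of zero-cycles rationally equivalent to zero (with
rational coefficients) is spanned by the differences `F_a - F_b`, where `F` runs over the families
of zero-cycles parametrized by the affine line, that is, over the integral affine curves `Spec B`
which are finite and dominant over the affine line and are equipped with a morphism to `X`.
-/

open CategoryTheory AlgebraicGeometry Polynomial Pool.Agent.H914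

namespace Pool.Agent.Helper912

/-! ## Points of schemes -/

/-- The set of points of a scheme. -/
abbrev SPt (X : Scheme.{0}) : Type := X

/-- The map on points given by a morphism of schemes. -/
def onS {X Y : Scheme.{0}} (f : X ⟶ Y) (x : SPt X) : SPt Y := f x

/-- The point `x` is closed. -/
def ClosedPt {X : Scheme.{0}} (x : SPt X) : Prop := IsClosed {x}

/-- The set `T` is closed in the Zariski topology. -/
def ClosedIn {X : Scheme.{0}} (T : Set (SPt X)) : Prop := IsClosed T

/-- The spectrum of the complex numbers. -/
noncomputable abbrev SpecC : Scheme.{0} := Spec (.of ℂ)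

/-- A morphism to the spectrum of the complex numbers. -/
abbrev OverC (X : Scheme.{0}) : Type := X ⟶ SpecC

/-- The affine line over the complex numbers. -/
noncomputable abbrev A1 : Scheme.{0} := Spec (.of ℂ[X])

/-- The closed point `a` of the affine line. -/
noncomputable def A1.pt (a : ℂ) : SPt A1 :=
  (⟨Ideal.span {(X - C a : ℂ[X])}, (Ideal.span_singleton_prime (X_sub_C_ne_zero a)).mpr
    (prime_X_sub_C a)⟩ : PrimeSpectrum ℂ[X])

/-- The structure morphism of the affine line. -/
noncomputable def A1.str : OverC A1 :=
  Spec.map (CommRingCat.ofHom (algebraMap ℂ ℂ[X]))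

/-! ## Zero-cycles and rational equivalence -/

/-- The coordinate ring `B/(t - a)` of the fibre of `Spec B` over the point `a` of the affine
line, for an algebra `B` over `ℂ[t]`. -/
abbrev Fib (B : Type) [CommRing B] [Algebra ℂ[X] B] (a : ℂ) : Type :=
  B ⧸ Ideal.span {algebraMap ℂ[X] B (Polynomial.X - C a)}

/-- The quotient map to the coordinate ring of the fibre. -/
noncomputable def toFib (B : Type) [CommRing B] [Algebra ℂ[X] B] (a : ℂ) : B →+* Fib B a :=
  Ideal.Quotient.mk _

/-- The multiplicity of a point of the spectrum of a finite-dimensional algebra `Q`: the dimension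
of the localization. -/
noncomputable def mult (Q : Type) [CommRing Q] [Algebra ℂ Q] (p : PrimeSpectrum Q) : ℚ :=
  (Module.finrank ℂ (Localization.AtPrime p.asIdeal) : ℚ)

/-- The sum of the points of the spectrum of a finite-dimensional algebra `Q`, mapped to `Z` and
counted with multiplicities. -/
noncomputable def cycleOf (Q : Type) [CommRing Q] [Algebra ℂ Q] {Z : Type}
    (f : PrimeSpectrum Q → Z) : Z →₀ ℚ :=
  ∑ᶠ p : PrimeSpectrum Q, Finsupp.single (f p) (mult Q p)

/-- A family of zero-cycles on the `ℂ`-scheme `X`, parametrized by the affine line: an integral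
curve `Spec B` that is finite and dominant over the affine line `Spec ℂ[t]`, with a `ℂ`-morphism
`τ` to `X`. -/
structure Family {X : Scheme.{0}} (s : OverC X) where
  /-- the coordinate ring of the curve -/
  B : Type
  [ring : CommRing B]
  [dom : IsDomain B]
  [algPoly : Algebra ℂ[X] B]
  [alg : Algebra ℂ B]
  [tower : IsScalarTower ℂ ℂ[X] B]
  [fin : Module.Finite ℂ[X] B]
  inj : Function.Injective (algebraMap ℂ[X] B)
  /-- the morphism to `X` -/
  τ : Spec (.of B) ⟶ X
  w : τ ≫ s = Spec.map (CommRingCat.ofHom (algebraMap ℂ B))

attribute [instance] Family.ring Family.dom Family.algPoly Family.alg Family.tower Family.fin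

namespace Family

variable {X : Scheme.{0}} {s : OverC X} (F : Family s)

/-- The image in `X` of a point of the fibre over `a`. -/
noncomputable def img (a : ℂ) (p : PrimeSpectrum (Fib F.B a)) : SPt X :=
  onS F.τ (PrimeSpectrum.comap (toFib F.B a) p : PrimeSpectrum F.B)

/-- The zero-cycle on `X` given by the fibre over the point `a` of the affine line: the points of
the fibre, counted with multiplicities and mapped to `X`. -/
noncomputable def fibre (a : ℂ) : SPt X →₀ ℚ :=
  cycleOf (Fib F.B a) (F.img a)

end Family

/-- Zero-cycles with rational coefficients rationally equivalent to zero (for `X` proper): the span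
of the differences of two fibres of families of zero-cycles parametrized by the affine line. -/
noncomputable def RatZero {X : Scheme.{0}} (s : OverC X) : Submodule ℚ (SPt X →₀ ℚ) :=
  Submodule.span ℚ {z | ∃ (F : Family s) (a b : ℂ), z = F.fibre a - F.fibre b}

/-- Two points of `X` are rationally equivalent as zero-cycles with rational coefficients. -/
def RatEq {X : Scheme.{0}} (s : OverC X) (x y : SPt X) : Prop :=
  Finsupp.single x 1 - Finsupp.single y 1 ∈ RatZero s

/-- There is a morphism from the affine line to `X`, with image in `T`, whose image contains the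
points `x` and `y` (as images of closed points). -/
def Line {X : Scheme.{0}} (s : OverC X) (T : Set (SPt X)) (x y : SPt X) : Prop :=
  ∃ φ : A1 ⟶ X, φ ≫ s = A1.str ∧ (∀ p, onS φ p ∈ T) ∧
    ∃ a b : ℂ, onS φ (A1.pt a) = x ∧ onS φ (A1.pt b) = y

/-- `T` is rationally chain connected: any two closed points of `T` are connected by a chain of
rational curves in `T`. -/
def RatChainConnected {X : Scheme.{0}} (s : OverC X) (T : Set (SPt X)) : Prop :=
  ∀ x y, x ∈ T → y ∈ T → ClosedPt x → ClosedPt y → Relation.ReflTransGen (Line s T) x y

/-- `T` is a constant cycle subset: all its closed points are rationally equivalent in `X`. -/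
def ConstCycle {X : Scheme.{0}} (s : OverC X) (T : Set (SPt X)) : Prop :=
  ∀ x y, x ∈ T → y ∈ T → ClosedPt x → ClosedPt y → RatEq s x y

/-! ## Intersection theory -/

/-- Smooth proper varieties over the complex numbers. -/
abbrev VarC : Type 1 := SmVar.{0} ℂ

/-- The set of points of a variety. -/
abbrev Pt (X : VarC) : Type := SPt X.X

/-- The map on points given by a morphism of varieties. -/
def onPt {X Y : VarC} (f : X ⟶ Y) (x : Pt X) : Pt Y := onS f.hom x

/-- The closure of the point `x` has codimension `p` in `X`, that is, dimension `dim X - p`. -/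
def IsCodim (X : VarC) (p : ℕ) (x : Pt X) : Prop :=
  Order.height x + p = X.dim

/-- The degree of a homomorphism of fields, as the dimension of the target over the source (zero if
it is infinite). -/
noncomputable def homDegree {K L : Type} [CommRing K] [CommRing L] (φ : K →+* L) : ℕ :=
  @Module.finrank K L _ _ φ.toAlgebra.toModule

/-- The degree of the residue field extension at the point `x` (zero if it is infinite). -/
noncomputable def resDegree {X Y : Scheme.{0}} (f : X ⟶ Y) (x : SPt X) : ℕ :=
  homDegree (f.residueFieldMap x).hom

/-- The data of an intersection theory with rational coefficients for smooth proper varieties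
over `ℂ`. -/
structure ChowData where
  /-- the ring `CH^*(X)_ℚ` -/
  CH : VarC → Type
  [ring : ∀ X, CommRing (CH X)]
  [algebra : ∀ X, Algebra ℚ (CH X)]
  /-- the class of the closure of a point -/
  cl : ∀ X : VarC, Pt X → CH X
  /-- pull-back -/
  pull : ∀ {X Y : VarC}, (X ⟶ Y) → (CH Y →ₐ[ℚ] CH X)
  /-- push-forward -/
  push : ∀ {X Y : VarC}, (X ⟶ Y) → (CH X →ₗ[ℚ] CH Y)
  /-- the degree of zero-cycles -/
  deg : ∀ X : VarC, CH X →ₗ[ℚ] ℚ

attribute [instance] ChowData.ring ChowData.algebra

namespace ChowData

/-- The classes of codimension `p` which are represented by cycles supported on `T`. -/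
def supp (C : ChowData) (X : VarC) (p : ℕ) (T : Set (Pt X)) : Submodule ℚ (C.CH X) :=
  Submodule.span ℚ {z | ∃ x : Pt X, x ∈ T ∧ IsCodim X p x ∧ z = C.cl X x}

/-- The group `CH^p(X)_ℚ`. -/
def gr (C : ChowData) (X : VarC) (p : ℕ) : Submodule ℚ (C.CH X) :=
  C.supp X p Set.univ

/-- The class of a cycle, given as a formal combination of points. -/
noncomputable def cycleClass (C : ChowData) (X : VarC) (z : Pt X →₀ ℚ) : C.CH X :=
  Finsupp.linearCombination ℚ (C.cl X) z

variable (C : ChowData)

/-- `CH^*(X)_ℚ` is the direct sum of the groups `CH^p(X)_ℚ`. -/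
def Graded : Prop := ∀ X, DirectSum.IsInternal (C.gr X)

/-- The unit is the class of `X`, of codimension zero. -/
def UnitClass : Prop := ∀ X : VarC, C.cl X (genericPoint X.X) = 1 ∧ (1 : C.CH X) ∈ C.gr X 0

/-- A product of classes supported on `S` and `T` is supported on `S ∩ T`. -/
def MulSupp : Prop := ∀ (X : VarC) (p q : ℕ) (S T : Set (Pt X)) (a b : C.CH X),
  ClosedIn S → ClosedIn T → a ∈ C.supp X p S → b ∈ C.supp X q T → a * b ∈ C.supp X (p + q) (S ∩ T)

/-- A zero-cycle has class zero if and only if it is rationally equivalent to zero. -/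
def ZeroCycles : Prop := ∀ (X : VarC) (z : Pt X →₀ ℚ), (∀ x ∈ z.support, ClosedPt x) →
  (C.cycleClass X z = 0 ↔ z ∈ RatZero X.str)

/-- Pull-back preserves identities and composition. -/
def PullFunctor : Prop := (∀ (X : VarC) (a : C.CH X), C.pull (𝟙 X) a = a) ∧
  ∀ (X Y Z : VarC) (f : X ⟶ Y) (g : Y ⟶ Z) (a : C.CH Z),
    C.pull (f ≫ g) a = C.pull f (C.pull g a)

/-- Pull-back preserves codimension, and the pull-back of a class supported on `T` is supported
on the preimage of `T`. -/
def PullSupp : Prop := ∀ (X Y : VarC) (f : X ⟶ Y) (p : ℕ) (T : Set (Pt Y)) (b : C.CH Y),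
  ClosedIn T → b ∈ C.supp Y p T → C.pull f b ∈ C.supp X p (onPt f ⁻¹' T)

/-- Push-forward preserves identities and composition. -/
def PushFunctor : Prop := (∀ (X : VarC) (a : C.CH X), C.push (𝟙 X) a = a) ∧
  ∀ (X Y Z : VarC) (f : X ⟶ Y) (g : Y ⟶ Z) (a : C.CH X),
    C.push (f ≫ g) a = C.push g (C.push f a)

/-- The push-forward of the class of an integral subscheme is the class of its image times the
degree of the map onto the image. -/
def PushClass : Prop := ∀ (X Y : VarC) (f : X ⟶ Y) (x : Pt X),
  C.push f (C.cl X x) = (resDegree f.hom x : ℚ) • C.cl Y (onPt f x)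

/-- Push-forward preserves dimension. -/
def PushGraded : Prop := ∀ (X Y : VarC) (f : X ⟶ Y) (p : ℕ) (a : C.CH X), a ∈ C.gr X p →
  (∀ q : ℕ, p + Y.dim = q + X.dim → C.push f a ∈ C.gr Y q) ∧
    (p + Y.dim < X.dim → C.push f a = 0)

/-- The projection formula. -/
def Projection : Prop := ∀ (X Y : VarC) (f : X ⟶ Y) (a : C.CH X) (b : C.CH Y),
  C.push f (a * C.pull f b) = C.push f a * b

/-- The degree is the number of points of a zero-cycle. -/
def Degree : Prop := (∀ (X : VarC) (x : Pt X), ClosedPt x → C.deg X (C.cl X x) = 1) ∧
  ∀ (X : VarC) (p : ℕ) (a : C.CH X), p ≠ X.dim → a ∈ C.gr X p → C.deg X a = 0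

end ChowData

/-- An intersection theory with rational coefficients for smooth proper varieties over `ℂ`, with
the standard properties of the Chow groups (Fulton, Intersection theory, Chapters 1 and 8). -/
structure ChowTheory extends ChowData where
  graded : toChowData.Graded
  unitClass : toChowData.UnitClass
  mulSupp : toChowData.MulSupp
  zeroCycles : toChowData.ZeroCycles
  pullFunctor : toChowData.PullFunctor
  pullSupp : toChowData.PullSupp
  pushFunctor : toChowData.PushFunctor
  pushClass : toChowData.PushClass
  pushGraded : toChowData.PushGraded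
  projection : toChowData.Projection
  degree : toChowData.Degree

/-- The zero-cycle class `z` is a multiple of the class of the point `y` (necessarily the multiple
by the degree of `z`). -/
def ChowTheory.IsMultiple (C : ChowTheory) {X : VarC} (z : C.CH X) (y : Pt X) : Prop :=
  z = C.deg X z • C.cl X y

/-- A class of codimension `i` on every smooth proper variety, compatible with isomorphisms, for
example the Chern class `c_i(X)` of the tangent bundle. -/
structure NatClass (C : ChowTheory) (i : ℕ) where
  /-- the class on `X` -/
  val : ∀ X, C.CH X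
  mem : ∀ X, val X ∈ C.gr X i
  iso : ∀ {X Y : VarC} (e : X ≅ Y), C.pull e.hom (val Y) = val X

/-- The product `∏_i c_i(X)^{k_i}`, for `i` from `1` to the dimension of `X`. -/
noncomputable def ChowTheory.chernProd (C : ChowTheory) (X : VarC)
    (c : ∀ i, NatClass C i) (k : ℕ → ℕ) : C.CH X :=
  ∏ i ∈ Finset.Icc 1 X.dim, (c i).val X ^ k i

/-- The codimension of the product `∏_i c_i(X)^{k_i}`. -/
def chernDeg (X : VarC) (k : ℕ → ℕ) : ℕ := ∑ i ∈ Finset.Icc 1 X.dim, i * k i

/-- The monomial `H^{k₀} ∏_i c_i(X)^{k_i}`, for `i` from `1` to the dimension of `X`. -/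
noncomputable def ChowTheory.monomial (C : ChowTheory) {X : VarC} (H : C.CH X)
    (c : ∀ i, NatClass C i) (k₀ : ℕ) (k : ℕ → ℕ) : C.CH X :=
  H ^ k₀ * C.chernProd X c k

end Pool.Agent.Helper912
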