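import Pool.Agent.Helper912_CZ.Generic

/-!
# Isotropic divisor classes
-/

open CategoryTheory AlgebraicGeometry Pool.Agent.H914

namespace Pool.Agent.Helper912

section Isotropic

variable {C : ChowTheory} {X : SmVar.{0} ℂ} {V : Submodule ℚ (C.CH X)}

/-- A submodule containing the products of `P` with the powers of `L` and `D` in which the
exponent of `D` is at most `m`, and with the powers of isotropic classes, contains `P D^{2m}`. -/
lemma isotropic_trick (q : QuadraticForm ℚ V) (L : V) (hL : q L = 0) (W : Submodule ℚ (C.CH X))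
    (m : ℕ) (P : C.CH X) (D : V) (hD : QuadraticMap.polar q L D ≠ 0)
    (h1 : ∀ a b, a + b = 2 * m → a ≤ m → P * (L : C.CH X) ^ b * (D : C.CH X) ^ a ∈ W)
    (h2 : ∀ α : V, q α = 0 → QuadraticMap.polar q L α ≠ 0 → (∃ t : ℚ, α = D - t • L) →
      ∀ i j, i + j = 2 * m → m < i → P * (α : C.CH X) ^ i * (L : C.CH X) ^ j ∈ W) :
    P * (D : C.CH X) ^ (2 * m) ∈ W := by
  obtain ⟨t, ht⟩ : ∃ t, t = q D / QuadraticMap.polar q L D := ⟨_, rfl⟩
  obtain ⟨α, hα⟩ : ∃ α : V, α = D - t • L := ⟨_, rfl⟩
  have hpLL : QuadraticMap.polar q L L = 0 := by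
    rw [QuadraticMap.polar_self, hL]
    simp
  have hαq : q α = 0 := by
    have h3 : q (D + -(t • L)) = q D + q (-(t • L)) + QuadraticMap.polar q D (-(t • L)) :=
      QuadraticMap.map_add _ _ _
    rw [hα, sub_eq_add_neg, h3, QuadraticMap.map_neg, QuadraticMap.map_smul, hL,
      QuadraticMap.polar_neg_right, QuadraticMap.polar_smul_right, QuadraticMap.polar_comm]
    simp only [smul_eq_mul, mul_zero, add_zero, ht]
    field_simp
    ring
  have hαL : QuadraticMap.polar q L α ≠ 0 := by
    rw [hα, QuadraticMap.polar_sub_right, QuadraticMap.polar_smul_right, hpLL]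
    simpa using hD
  have hDα : (D : C.CH X) = α + t • (L : C.CH X) := by
    rw [hα]
    simp
  have hαD : (α : C.CH X) = D - t • (L : C.CH X) := by
    rw [hα]
    simp
  rw [hDα, add_pow, Finset.mul_sum]
  apply Submodule.sum_mem
  intro i hi
  have hi' : i ≤ 2 * m := Nat.lt_succ_iff.mp (Finset.mem_range.mp hi)
  obtain ⟨j, hj⟩ : ∃ j, i + j = 2 * m := ⟨2 * m - i, by omega⟩
  have hj' : 2 * m - i = j := by omega
  rw [hj']
  by_cases hmi : m < i
  · have h4 := Submodule.smul_mem _ (t ^ j * ((2 * m).choose i : ℚ)) (h2 α hαq hαL ⟨t, hα⟩ i j hj hmi)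
    convert h4 using 1
    rw [smul_pow]
    simp only [Algebra.smul_def, map_mul, map_natCast]
    ring
  · rw [hαD, sub_eq_add_neg, add_pow, Finset.sum_mul, Finset.sum_mul, Finset.mul_sum]
    apply Submodule.sum_mem
    intro s hs
    have hs' : s ≤ i := Nat.lt_succ_iff.mp (Finset.mem_range.mp hs)
    have h4 := Submodule.smul_mem _ ((-t) ^ (i - s) * t ^ j * (i.choose s : ℚ) *
      ((2 * m).choose i : ℚ)) (h1 s (i - s + j) (by omega) (by omega))
    convert h4 using 1
    rw [← neg_smul, smul_pow, smul_pow, pow_add]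
    simp only [Algebra.smul_def, map_mul, map_natCast]
    ring

open Polynomial in
/-- A polynomial statement for all divisor classes follows from the generic one. -/
lemma mem_of_infinite (W : Submodule ℚ (C.CH X)) (m : ℕ) (P D u : C.CH X) (S : Set ℚ)
    (hS : S.Infinite) (h : ∀ ε ∈ S, P * (D + ε • u) ^ m ∈ W) : P * D ^ m ∈ W := by
  let F : (C.CH X)[X] := Polynomial.C P * (Polynomial.C D + Polynomial.X * Polynomial.C u) ^ m
  have h1 := coeff_mem_of_infinite W F S hS ?_ 0
  · have h2 : F.coeff 0 = P * D ^ m := by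
      simp only [F]
      rw [Polynomial.coeff_zero_eq_eval_zero]
      simp
    rwa [h2] at h1
  · intro ε hε
    have h2 : F.eval (algebraMap ℚ _ ε) = P * (D + ε • u) ^ m := by
      simp only [F, Polynomial.eval_pow, Polynomial.eval_add, Polynomial.eval_C,
        Polynomial.eval_mul, Polynomial.eval_X, Algebra.smul_def]
    rw [h2]
    exact h ε hε

/-- If the odd Chern classes vanish, then monomials with an odd power of `H` vanish. -/
lemma monomial_odd {n : ℕ} (hX : X.dim = 2 * n) (c : ∀ i, NatClass C i)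
    (hodd : ∀ i, Odd i → (c i).val X = 0) (H : C.CH X) (k₀ : ℕ) (k : ℕ → ℕ)
    (hk : k₀ + chernDeg X k = X.dim) (hk₀ : Odd k₀) :
    C.monomial H c k₀ k = 0 := by
  rw [chernDeg] at hk
  have h1 : Odd (∑ i ∈ Finset.Icc 1 X.dim, i * k i) := by
    by_contra h
    rw [Nat.not_odd_iff_even] at h
    have h2 := hk₀.add_even h
    rw [hk, hX] at h2
    exact (Nat.not_odd_iff_even.mpr (even_two_mul n)) h2
  obtain ⟨i, hi, hi'⟩ : ∃ i ∈ Finset.Icc 1 X.dim, Odd (i * k i) := by
    by_contra h
    push Not at h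
    exact (Nat.not_odd_iff_even.mpr
      (Finset.even_sum _ fun i hi => Nat.not_odd_iff_even.mp (h i hi))) h1
  rw [Nat.odd_mul] at hi'
  have h3 : C.chernProd X c k = 0 := by
    rw [ChowTheory.chernProd]
    apply Finset.prod_eq_zero hi
    rw [hodd i hi'.1, zero_pow]
    rintro h0
    rw [h0] at hi'
    exact absurd hi'.2 (by decide)
  rw [ChowTheory.monomial, h3, mul_zero]

lemma isMultiple_zero (y : X.X) : C.IsMultiple (0 : C.CH X) y := by
  rw [ChowTheory.IsMultiple, map_zero, zero_smul]

end Isotropic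

end Pool.Agent.Helper912
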