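import Pool.Agent.Helper912_CZ.FibDefs
import Pool.Agent.Helper912_CZ.Lagr

/-!
# Zero-cycles on Lagrangian fibrations with nodal degenerations
-/

open CategoryTheory AlgebraicGeometry Pool.Agent.H914

namespace Pool.Agent.Helper912

namespace Nodal

variable {C : ChowTheory} {X : VarC} {Z Z' : Piece X} (N : Nodal Z Z')

/-- The images in `X` of a point and of its translate are rationally equivalent. -/
lemma transRat (hs : N.Sections) (hg : N.Glued) (hr : N.Ruled) (x : Pt Z'.tot) (hx : ClosedPt x) :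
    RatEq X.str (onPt Z'.ζ (onPt N.g.hom x)) (onPt Z'.ζ x) := by
  have h0 := ChowTheory.isClosed_map N.s₀ hx
  have h1 := ChowTheory.isClosed_map N.s₁ hx
  have e0 : N.π.hom (N.s₀.hom x) = x := by
    rw [← Scheme.Hom.comp_apply, ← SmVar.comp_hom, hs.1]
    rfl
  have e1 : N.π.hom (N.s₁.hom x) = x := by
    rw [← Scheme.Hom.comp_apply, ← SmVar.comp_hom, hs.2]
    rfl
  have h2 : RatEq N.T.str (N.s₀.hom x) (N.s₁.hom x) := hr.2 _ _ h0 h1 (by
    change N.π.hom _ = N.π.hom _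
    rw [e0, e1])
  have h3 := h2.map (N.ν ≫ Z.ζ).hom (N.ν ≫ Z.ζ).w
  have h4 : (N.ν ≫ Z.ζ).hom (N.s₁.hom x) = Z'.ζ.hom x := by
    rw [← Scheme.Hom.comp_apply, ← SmVar.comp_hom, hg.1]
  have h5 : (N.ν ≫ Z.ζ).hom (N.s₀.hom x) = Z'.ζ.hom (N.g.hom.hom x) := by
    rw [← Scheme.Hom.comp_apply, ← SmVar.comp_hom, hg.2.1, SmVar.comp_hom,
      Scheme.Hom.comp_apply]
  rw [h4, h5] at h3
  exact h3

lemma μ_mem (hr : N.Ruled) : N.μ C ∈ C.gr Z'.tot 1 := by
  rw [μ]
  apply C.pull_mem_gr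
  have h := (C.pushGraded Z'.tot N.T N.s₀ 0 1 (C.one_mem _)).1 1
  apply h
  rw [hr.1]
  omega

/-- The translate of a divisor class. -/
lemma transDiv (hs : N.Sections) (hg : N.Glued) (hc : N.Cross C) {D : C.CH X} {κ : ℚ}
    (h : N.DivT C D κ) :
    C.pull N.g.hom (C.pull Z'.ζ D) - C.pull Z'.ζ D - κ • N.μ C ∈ Z'.vert C := by
  obtain ⟨a, ha⟩ := h
  have h1 : C.pull N.g.hom (C.pull Z'.ζ D) = κ • N.μ C + a := by
    rw [← C.pull_comp, ← hg.2.1, C.pull_comp, ha, map_add, map_smul, ← C.pull_comp, hs.1,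
      C.pull_id, μ]
  have h2 : C.pull Z'.ζ D = κ • C.pull N.s₁ (C.push N.s₀ 1) + a := by
    conv_lhs => rw [← hg.1, C.pull_comp, ha, map_add, map_smul, ← C.pull_comp, hs.2, C.pull_id]
  have h3 : C.pull N.g.hom (C.pull Z'.ζ D) - C.pull Z'.ζ D - κ • N.μ C =
      -(κ • C.pull N.s₁ (C.push N.s₀ 1)) := by
    rw [h1, h2]
    abel
  rw [h3]
  exact neg_mem (Submodule.smul_mem _ _ hc)

end Nodal

namespace Pieces

variable {C : ChowTheory} {X : VarC} (S : Pieces C X)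

/-- The piece with its branches. -/
noncomputable def stratum (σ : S.Idx) : Stratum C X where
  base := (S.Z σ).base
  tot := (S.Z σ).tot
  p := (S.Z σ).p
  ζ := (S.Z σ).ζ
  ι := S.B σ
  g := fun i => (S.N σ i).g
  μ := fun i => (S.N σ i).μ C

/-- The nodal degeneration. -/
noncomputable def nodalData (σ : S.Idx) (i : S.B σ) :
    NodalData (S.stratum (S.par σ i)) (S.stratum σ) where
  T := (S.N σ i).T
  π := (S.N σ i).π
  ν := (S.N σ i).ν
  s₀ := (S.N σ i).s₀
  s₁ := (S.N σ i).s₁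
  φ := (S.N σ i).φ
  i := i

end Pieces

namespace TransSystem

variable {C : ChowTheory} {X : VarC} {m r t : ℕ} {c : ∀ i, NatClass C i}
  {V : Submodule ℚ (C.CH X)} {L : C.CH X} (S : TransSystem C X m r t c V L)

lemma dim_tot (σ : S.Idx) : (S.Z σ).tot.dim = (S.Z σ).base.dim + S.d σ := by
  obtain ⟨h1, h2, -⟩ := S.shape σ
  omega

lemma overBase (σ : S.Idx) : (S.stratum σ).OverBase := fun i => (S.gluings σ i).1.2.1.2.2

lemma transRat (σ : S.Idx) : (S.stratum σ).TransRat := fun i x hx =>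
  (S.N σ i).transRat (S.gluings σ i).1.1 (S.gluings σ i).1.2.1 (S.gluings σ i).1.2.2.1 x hx

lemma branchInv (σ : S.Idx) : (S.stratum σ).BranchInv :=
  ⟨fun i => (S.N σ i).μ_mem (S.gluings σ i).1.2.2.1, fun i j => S.invariant σ i j⟩

lemma transDiv (σ : S.Idx) {D : C.CH X} (hD : D ∈ V) :
    (S.stratum σ).TransDiv D (fun i => S.k σ i D) := fun i =>
  (S.N σ i).transDiv (S.gluings σ i).1.1 (S.gluings σ i).1.2.1 (S.gluings σ i).1.2.2.2
    ((S.gluings σ i).2 D hD)

/-- The products of a monomial in the Chern classes with many powers of `L`. -/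
lemma mul_pow_mem (hV : V ≤ C.gr X 1) {D : C.CH X} (hDV : D ∈ V) (hD : S.GenericFor D)
    (W : Submodule ℚ (C.CH X)) (a b : ℕ) (hab : a + b = 2 * m) (ham : a ≤ m) (htb : t ≤ b)
    (hgood : a = m → ∀ σ, ∀ γ ∈ C.gr (S.Z σ).base (S.Z σ).base.dim,
      C.push (S.Z σ).ζ (C.pull (S.Z σ).ζ D ^ S.d σ * C.pull (S.Z σ).p γ) ∈ W)
    (k : ℕ → ℕ) (hk : chernDeg X k = 2 * r) :
    C.chernProd X c k * L ^ b * D ^ a ∈ W := by
  obtain ⟨b', rfl⟩ : ∃ b', b = t + b' := ⟨b - t, by omega⟩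
  obtain ⟨x, hP, hx⟩ := S.represents k hk
  rw [pow_add, ← mul_assoc, hP, Finset.sum_mul, Finset.sum_mul]
  apply Submodule.sum_mem
  intro σ _
  rw [mul_assoc, ← C.proj, map_mul (C.pull (S.Z σ).ζ), map_pow, map_pow]
  rcases hx σ with h0 | ⟨e, he, hxe⟩
  · rw [h0, zero_mul, map_zero]
    exact zero_mem _
  obtain ⟨hd1, hd2, hLv, -⟩ := S.shape σ
  obtain ⟨Lb, hLb, hLb2⟩ : ∃ w ∈ C.gr (S.Z σ).base 1,
    C.pull (S.Z σ).p w = C.pull (S.Z σ).ζ L := hLv
  have hle : S.taut σ e ≤ W.comap (C.push (S.Z σ).ζ ∘ₗ LinearMap.mulRight ℚ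
      (C.pull (S.Z σ).ζ L ^ b' * C.pull (S.Z σ).ζ D ^ a)) := by
    rw [Pieces.taut, Submodule.span_le]
    rintro _ ⟨l, j, γ, hγ, hlj, rfl⟩
    rw [SetLike.mem_coe, Submodule.mem_comap, LinearMap.comp_apply, LinearMap.mulRight_apply]
    have h1 : (l.map fun i => (S.N σ i).μ C).prod * C.pull (S.Z σ).p γ *
        (C.pull (S.Z σ).ζ L ^ b' * C.pull (S.Z σ).ζ D ^ a) =
        C.pull (S.Z σ).ζ D ^ a * (l.map fun i => (S.N σ i).μ C).prod *
          C.pull (S.Z σ).p (γ * Lb ^ b') := by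
      rw [map_mul, map_pow, hLb2]
      ring
    rw [h1]
    refine (S.stratum σ).mem_of_good (S.overBase σ) (S.transRat σ) (S.branchInv σ) (hV hDV)
      (hD σ) (S.transDiv σ hDV) (d := S.d σ) (S.dim_tot σ) W (2 * a + e) (by omega) ?_
      (2 * a + l.length) (by omega) l.length l rfl a
      (j + b' * 1) (γ * Lb ^ b') (C.mul_mem_gr hγ (C.pow_mem_gr hLb b')) ?_ rfl
    · intro h2
      exact hgood (by omega) σ
    · change a + l.length + (j + b' * 1) = (S.Z σ).tot.dim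
      omega
  exact hle hxe

end TransSystem

namespace FibSystem

variable {C : ChowTheory} {X : VarC} {m r t : ℕ} {c : ∀ i, NatClass C i}
  {V : Submodule ℚ (C.CH X)} {L : C.CH X} {T : Set (Pt X)} (S : FibSystem C X m r t c V L T)

/-- The top power of a divisor class on the fibres of all pieces. -/
lemma fibreMultiple (hX : X.dim = 2 * (m + r)) (hV : V ≤ C.gr X 1) (hTc : IsClosed T)
    (hT : ConstCycle X.str T) {y : X.X} (hy : y ∈ T) (hy' : IsClosed {y}) (σ : S.Idx)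
    {D : C.CH X} (hDV : D ∈ V) (hD : S.GenericFor D) :
    (S.stratum σ).FibreMultiple (S.d σ) D y := by
  obtain ⟨M, hM⟩ : ∃ M, ∀ σ, S.d σ ≤ M :=
    ⟨Finset.univ.sup S.d, fun σ => Finset.le_sup (Finset.mem_univ σ)⟩
  obtain ⟨e, he⟩ : ∃ e, e = M - S.d σ := ⟨_, rfl⟩
  induction e using Nat.strong_induction_on generalizing σ with
  | _ e ih =>
  rcases isEmpty_or_nonempty (S.B σ) with h | ⟨⟨i⟩⟩
  · intro γ hγ
    rw [C.isMultiple_iff hy']
    obtain ⟨hd, hb⟩ := S.bottom σ h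
    have h1 := hb γ hγ
    have h2 := C.pow_mem_gr (hV hDV) (S.d σ)
    have h3 := C.mulSupp _ _ _ _ _ _ _ isClosed_univ hTc h2 h1
    rw [Set.univ_inter] at h3
    have h4 : S.d σ * 1 + (m + r) = X.dim := by omega
    rw [h4] at h3
    have h5 := C.eq_deg_smul_of_constCycle hT hy hy' h3
    have h6 : C.push (S.Z σ).ζ (C.pull (S.Z σ).ζ D ^ S.d σ * C.pull (S.Z σ).p γ) =
        D ^ S.d σ * C.push (S.Z σ).ζ (C.pull (S.Z σ).p γ) := by
      rw [← map_pow (C.pull (S.Z σ).ζ), mul_comm, C.proj, mul_comm]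
    change C.push (S.Z σ).ζ (C.pull (S.Z σ).ζ D ^ S.d σ * C.pull (S.Z σ).p γ) ∈ C.line y
    rw [h6, h5]
    exact Submodule.smul_mem _ _ (Submodule.mem_span_singleton_self _)
  · obtain ⟨hd, hf⟩ := S.chain σ i
    obtain ⟨⟨hs, hg, hr, hc⟩, hdiv⟩ := S.gluings σ i
    have h1 : (S.stratum (S.par σ i)).FibreMultiple (S.d σ + 1) D y := by
      rw [← hd]
      have h2 := hM (S.par σ i)
      have h3 := hM σ
      exact ih (M - S.d (S.par σ i)) (by omega) (S.par σ i) rfl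
    exact (S.nodalData σ i).fibreMultiple_of_ne hs ⟨hg.1, hg.2.1⟩ hr hc hf (S.overBase σ)
      (S.transRat σ) (S.branchInv σ) (hV hDV) (S.transDiv σ hDV) (hD σ i) (hD σ i)
      (hdiv D hDV) (S.dim_tot σ) hy' h1

end FibSystem

section Model

variable {C : ChowTheory} {X : VarC} {c : ∀ i, NatClass C i}

lemma Model.chernProd (M : Model C X c) (k : ℕ → ℕ) :
    M.Φ (C.chernProd M.X' c k) = C.chernProd X c k := by
  rw [ChowTheory.chernProd, ChowTheory.chernProd, map_prod, M.dim]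
  apply Finset.prod_congr rfl
  intro i _
  rw [map_pow, M.chern]

lemma Model.chernDeg (M : Model C X c) (k : ℕ → ℕ) : chernDeg M.X' k = chernDeg X k := by
  rw [Helper912.chernDeg, Helper912.chernDeg, M.dim]

/-- The products of Chern classes with many powers of the class of a fibration on a model
vanish. -/
lemma Fibred.mul_pow_eq_zero {m r : ℕ} {V : Submodule ℚ (C.CH X)} (hV : V ≤ C.gr X 1)
    {L α : C.CH X} (hL : L ∈ V) (h : Fibred m r c V L α) (k : ℕ → ℕ)
    (hk : Helper912.chernDeg X k = 2 * r) (a b : ℕ) (hab : a + b = 2 * m) (ham : a < m) :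
    C.chernProd X c k * α ^ b * L ^ a = 0 := by
  obtain ⟨M, t, S, ht, hS⟩ := h
  have h1 : M.Φ.symm L ∈ V.comap M.Φ.toLinearMap := by
    change M.Φ (M.Φ.symm L) ∈ V
    rwa [AlgEquiv.apply_symm_apply]
  have h2 : V.comap M.Φ.toLinearMap ≤ C.gr M.X' 1 := by
    intro x hx
    exact (M.gr 1 x).mpr (hV hx)
  have h3 := S.mul_pow_mem h2 h1 hS ⊥ a b hab ham.le (by omega) (fun h => by omega) k
    (by rw [M.chernDeg, hk])
  rw [Submodule.mem_bot] at h3
  have h4 := congrArg M.Φ h3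
  rw [map_mul, map_mul, map_pow, map_pow, M.chernProd, AlgEquiv.apply_symm_apply,
    AlgEquiv.apply_symm_apply, map_zero] at h4
  exact h4

end Model

section Final

variable {C : ChowTheory} {X : VarC}

/-- The isotropic trick with finitely many linear forms. -/
theorem mem_of_isotropic (V : DivSpace C X) (L u : V.Elt) (hL : V.form L = 0)
    (hu : V.pair L u ≠ 0) (W : Submodule ℚ (C.CH X)) (m : ℕ) (P : C.CH X) {ι : Type}
    [Finite ι] (k : ι → (C.CH X →ₗ[ℚ] ℚ)) (hkL : ∀ i, k i (V.cls L) = 0)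
    (hku : ∀ i, k i (V.cls u) ≠ 0)
    (h1 : ∀ D : V.Elt, (∀ i, k i (V.cls D) ≠ 0) → ∀ a b, a + b = 2 * m → a ≤ m →
      P * V.cls L ^ b * V.cls D ^ a ∈ W)
    (h2 : ∀ α : V.Elt, V.form α = 0 → V.pair L α ≠ 0 → (∀ i, k i (V.cls α) ≠ 0) →
      ∀ i j, i + j = 2 * m → m < i → P * V.cls α ^ i * V.cls L ^ j ∈ W)
    (H : V.Elt) : P * V.cls H ^ (2 * m) ∈ W := by
  refine mem_of_infinite W (2 * m) _ (V.cls H) (V.cls u)
    {ε : ℚ | (∀ i, k i (V.cls (H + ε • u)) ≠ 0) ∧ V.pair L (H + ε • u) ≠ 0} ?_ ?_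
  · have h := infinite_generic (ι := Option ι)
      (fun x => x.elim (V.pair L H) fun x => k x (V.cls H))
      (fun x => x.elim (V.pair L u) fun x => k x (V.cls u)) (by
        rintro (_ | x)
        · exact hu
        · exact hku x)
    apply h.mono
    intro ε hε
    refine ⟨fun i => ?_, ?_⟩
    · have := hε (some i)
      simpa [DivSpace.cls] using this
    · have := hε none
      rw [DivSpace.pair, QuadraticMap.polar_add_right, QuadraticMap.polar_smul_right]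
      simpa [DivSpace.pair] using this
  · rintro ε ⟨hε1, hε2⟩
    have h3 : V.cls H + ε • V.cls u = V.cls (H + ε • u) := by simp [DivSpace.cls]
    rw [h3]
    apply isotropic_trick V.q L hL W m P (H + ε • u) hε2
    · intro a b hab ham
      exact h1 (H + ε • u) hε1 a b hab ham
    · rintro α hα1 hα2 ⟨t, ht⟩ i j hij hmi
      refine h2 α hα1 hα2 ?_ i j hij hmi
      intro i
      have h4 : V.cls α = V.cls (H + ε • u) - t • V.cls L := by rw [ht]; simp [DivSpace.cls]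
      rw [h4, map_sub, map_smul, hkL, smul_zero, sub_zero]
      exact hε1 i

/-- The main statement on zero-cycles on varieties with Lagrangian fibrations. -/
theorem isMultiple_of_fibSystem {m r t : ℕ} (ht : t ≤ m) (hX : X.dim = 2 * (m + r))
    (c : ∀ i, NatClass C i)
    (V : DivSpace C X) {T : Set (Pt X)} (hTc : IsClosed T) (hT : ConstCycle X.str T)
    {y : Pt X} (hy : y ∈ T) (hy' : IsClosed {y}) (L u : V.Elt) (hL : V.form L = 0)
    (hu : V.pair L u ≠ 0) (S : FibSystem C X m r t c V.V (V.cls L) T)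
    (hu' : S.GenericFor (V.cls u))
    (hα : ∀ α : V.Elt, V.form α = 0 → V.pair L α ≠ 0 → S.GenericFor (V.cls α) →
      Fibred m r c V.V (V.cls L) (V.cls α))
    (H : V.Elt) (k : ℕ → ℕ) (hk : chernDeg X k = 2 * r) :
    C.IsMultiple (C.chernProd X c k * V.cls H ^ (2 * m)) y := by
  rw [C.isMultiple_iff hy']
  refine mem_of_isotropic V L u hL hu (C.line y) m _ (ι := Σ σ, S.B σ)
    (fun x => S.k x.1 x.2) (fun x => (S.shape x.1).2.2.2 x.2) (fun x => hu' x.1 x.2) ?_ ?_ H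
  · intro D hD a b hab ham
    exact S.mul_pow_mem V.le D.2 (fun σ i => hD ⟨σ, i⟩) (C.line y) a b hab ham (by omega)
      (fun _ σ γ hγ => (C.isMultiple_iff hy').mp
        (S.fibreMultiple hX V.le hTc hT hy hy' σ D.2 (fun σ i => hD ⟨σ, i⟩) γ hγ)) k hk
  · intro α h1 h2 h3 i j hij hmi
    have h4 := (hα α h1 h2 (fun σ i => h3 ⟨σ, i⟩)).mul_pow_eq_zero V.le L.2 k hk j i (by omega)
      (by omega)
    change C.chernProd X c k * V.cls α ^ i * V.cls L ^ j = 0 at h4
    rw [h4]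
    exact zero_mem _

end Final

end Pool.Agent.Helper912
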