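import Pool.Agent.Helper912_CZ.ModelDefs

/-!
# Lagrangian fibrations with nodal degenerations
-/

open CategoryTheory AlgebraicGeometry Pool.Agent.H914

namespace Pool.Agent.Helper912

/-! ## Pieces and nodal degenerations -/

/-- A family `p : tot → base` of (possibly degenerate) abelian varieties, with a morphism `ζ` from
its total space to `X`. -/
structure Piece (X : VarC) where
  /-- the base of the family -/
  base : VarC
  /-- the total space of the family -/
  tot : VarC
  /-- the structure morphism of the family -/
  p : tot ⟶ base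
  /-- the morphism to `X` -/
  ζ : tot ⟶ X

namespace Piece

variable (C : ChowTheory) {X : VarC} (Z : Piece X)

/-- The divisor classes on the total space which are pulled back from the base. -/
noncomputable def vert : Submodule ℚ (C.CH Z.tot) :=
  (C.gr Z.base 1).map (C.pull Z.p).toLinearMap

end Piece

/-- The data of a nodal degeneration of the family `Z`: the fibres of `Z'` are the loci of nodes of
degenerate fibres of `Z`; the normalizations of these degenerate fibres form a family of
`ℙ¹`-bundles over the fibres of `Z'`, with total space `T`, on which two sections are glued by the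
translation `g`. -/
structure Nodal {X : VarC} (Z Z' : Piece X) where
  /-- the total space of the `ℙ¹`-bundle -/
  T : VarC
  /-- the projection of the `ℙ¹`-bundle -/
  π : T ⟶ Z'.tot
  /-- the normalization map -/
  ν : T ⟶ Z.tot
  /-- the first section -/
  s₀ : Z'.tot ⟶ T
  /-- the second section -/
  s₁ : Z'.tot ⟶ T
  /-- the translation -/
  g : Z'.tot ≅ Z'.tot
  /-- the map on the bases -/
  φ : Z'.base ⟶ Z.base

namespace Nodal

variable (C : ChowTheory) {X : VarC} {Z Z' : Piece X} (N : Nodal Z Z')

/-- `s₀` and `s₁` are sections of `π`. -/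
def Sections : Prop := N.s₀ ≫ N.π = 𝟙 Z'.tot ∧ N.s₁ ≫ N.π = 𝟙 Z'.tot

/-- The second section gives the map `ζ` of `Z'`, and the first one its composition with `g`, which
is an automorphism over the base. -/
def Glued : Prop := N.s₁ ≫ N.ν ≫ Z.ζ = Z'.ζ ∧ N.s₀ ≫ N.ν ≫ Z.ζ = N.g.hom ≫ Z'.ζ ∧
  N.g.hom ≫ Z'.p = Z'.p

/-- Two points of a fibre of `π` are rationally equivalent. -/
def Ruled : Prop := N.T.dim = Z'.tot.dim + 1 ∧
  ∀ t t' : Pt N.T, ClosedPt t → ClosedPt t' → onPt N.π t = onPt N.π t' → RatEq N.T.str t t'

/-- The first section meets the second one only over a divisor of the base of `Z'`, if at all. -/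
def Cross : Prop := C.pull N.s₁ (C.push N.s₀ 1) ∈ Z'.vert C

/-- The four properties above. -/
def Gluing : Prop := N.Sections ∧ N.Glued ∧ N.Ruled ∧ N.Cross C

/-- The class of the normal bundle of the first section. -/
noncomputable def μ : C.CH Z'.tot := C.pull N.s₀ (C.push N.s₀ 1)

/-- The pull-back to `T` of the divisor class `D` on `X` is `κ` times the class of the first
section plus a class pulled back from `Z'`; so `κ` is the degree of `D` on the fibres of `π`. -/
def DivT (D : C.CH X) (κ : ℚ) : Prop :=
  ∃ a, C.pull (N.ν ≫ Z.ζ) D = κ • C.push N.s₀ 1 + C.pull N.π a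

/-- The push-forward of a fibre of the family `T` is a fixed nonzero multiple of the corresponding
fibre of `Z`. -/
def FibreClass : Prop := ∃ e : ℚ, e ≠ 0 ∧ ∀ γ ∈ C.gr Z'.base Z'.base.dim,
  C.push N.ν (C.pull N.π (C.pull Z'.p γ)) = e • C.pull Z.p (C.push N.φ γ)

end Nodal

/-! ## Systems of pieces -/

/-- A finite system of pieces `Z σ` of a fibration of `X`, with their fibre dimensions `d σ`; every
branch `i ∈ B σ` presents `Z σ` as a nodal degeneration of another piece, and `k σ i` are linear
forms on divisor classes. -/
structure Pieces (C : ChowTheory) (X : VarC) where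
  /-- the index set -/
  Idx : Type
  [fintype : Fintype Idx]
  /-- the pieces -/
  Z : Idx → Piece X
  /-- the dimensions of the fibres -/
  d : Idx → ℕ
  /-- the branches -/
  B : Idx → Type
  [fin : ∀ σ, Finite (B σ)]
  /-- the piece which degenerates along a branch -/
  par : ∀ σ, B σ → Idx
  /-- the nodal degenerations -/
  N : ∀ σ i, Nodal (Z (par σ i)) (Z σ)
  /-- the linear forms -/
  k : ∀ σ, B σ → (C.CH X →ₗ[ℚ] ℚ)

attribute [instance] Pieces.fintype Pieces.fin

namespace Pieces

variable {C : ChowTheory} {X : VarC} (S : Pieces C X)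

/-- The pieces have fibres of dimension `d σ` and bases of dimension `d σ - t`, and the divisor
class `L` is pulled back from the base on every piece. -/
def Shape (t : ℕ) (L : C.CH X) : Prop := ∀ σ, (S.Z σ).base.dim + t = S.d σ ∧
  (S.Z σ).tot.dim + t = 2 * S.d σ ∧ C.pull (S.Z σ).ζ L ∈ (S.Z σ).vert C ∧ ∀ i, S.k σ i L = 0

/-- The branches give glued `ℙ¹`-bundles, and the degree of a divisor class `D` of `V` on the `ℙ¹`
belonging to the branch `i` is `k σ i D`. -/
def Gluings (V : Submodule ℚ (C.CH X)) : Prop := ∀ σ i,
  (S.N σ i).Gluing C ∧ ∀ D ∈ V, (S.N σ i).DivT C D (S.k σ i D)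

/-- The normal classes are invariant under the translations, up to vertical classes. -/
def Invariant : Prop := ∀ σ i j,
  C.pull (S.N σ i).g.hom ((S.N σ j).μ C) - (S.N σ j).μ C ∈ (S.Z σ).vert C

/-- The branches present a piece as a degeneration of a piece with fibres of dimension one
larger. -/
def Chain : Prop := ∀ σ i, S.d (S.par σ i) = S.d σ + 1 ∧ (S.N σ i).FibreClass C

/-- The pieces without branches have fibres of dimension `n`, whose classes in `X` are supported on
the subset `T` (for example a special fibre of the fibration of `X`). -/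
def Bottom (n : ℕ) (T : Set (Pt X)) : Prop := ∀ σ, IsEmpty (S.B σ) → S.d σ = n ∧
  ∀ γ ∈ C.gr (S.Z σ).base (S.Z σ).base.dim,
    C.push (S.Z σ).ζ (C.pull (S.Z σ).p γ) ∈ C.supp X n T

/-- The span of the classes of codimension `e` on the piece which are products of normal classes
and a class pulled back from the base. -/
noncomputable def taut (σ : S.Idx) (e : ℕ) : Submodule ℚ (C.CH (S.Z σ).tot) :=
  Submodule.span ℚ {z | ∃ (l : List (S.B σ)) (j : ℕ) (γ : C.CH (S.Z σ).base),
    γ ∈ C.gr (S.Z σ).base j ∧ l.length + j = e ∧
      z = (l.map fun i => (S.N σ i).μ C).prod * C.pull (S.Z σ).p γ}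

/-- The class `P` is a sum of push-forwards of classes in `taut`, of codimension `2 (d σ - m)` on
the piece `Z σ`. -/
def Represents (m : ℕ) (P : C.CH X) : Prop := ∃ x : ∀ σ, C.CH (S.Z σ).tot,
  P = ∑ σ, C.push (S.Z σ).ζ (x σ) ∧
    ∀ σ, x σ = 0 ∨ ∃ e, e + 2 * m = 2 * S.d σ ∧ x σ ∈ S.taut σ e

/-- The divisor class `D` is not in the kernel of any of the linear forms of the branches. -/
def GenericFor (D : C.CH X) : Prop := ∀ σ i, S.k σ i D ≠ 0

end Pieces

/-- A system of pieces for the restriction to a linear subspace of codimension `t` in the base of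
the fibration of the `2 (m + r)`-dimensional variety `X` given by the divisor class `L`, which
represents the products with `L ^ t` of the monomials of codimension `2 r` in the Chern classes. -/
structure TransSystem (C : ChowTheory) (X : VarC) (m r t : ℕ) (c : ∀ i, NatClass C i)
    (V : Submodule ℚ (C.CH X)) (L : C.CH X) extends Pieces C X where
  shape : toPieces.Shape t L
  gluings : toPieces.Gluings V
  invariant : toPieces.Invariant
  represents : ∀ k, chernDeg X k = 2 * r →
    toPieces.Represents m (C.chernProd X c k * L ^ t)

/-- A system of pieces as above in which every piece arises by nodal degenerations from pieces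
whose fibres have classes supported on `T`. -/
structure FibSystem (C : ChowTheory) (X : VarC) (m r t : ℕ) (c : ∀ i, NatClass C i)
    (V : Submodule ℚ (C.CH X)) (L : C.CH X) (T : Set (Pt X)) extends
    TransSystem C X m r t c V L where
  chain : toPieces.Chain
  bottom : toPieces.Bottom (m + r) T

/-- The divisor class `α` corresponds to a fibration on some model of `X`, with a system of pieces
for a linear subspace of codimension at most `m + 1`, for which the class `L` is generic. -/
def Fibred {C : ChowTheory} {X : VarC} (m r : ℕ) (c : ∀ i, NatClass C i)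
    (V : Submodule ℚ (C.CH X)) (L α : C.CH X) : Prop :=
  ∃ (M : Model C X c) (t : ℕ)
    (S : TransSystem C M.X' m r t c (V.comap M.Φ.toLinearMap) (M.Φ.symm α)),
      t ≤ m + 1 ∧ S.GenericFor (M.Φ.symm L)

end Pool.Agent.Helper912
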