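import Pool.Agent.Helper912_CZ.Nodal

/-!
# Arbitrary divisor classes and strata with rational base
-/

open CategoryTheory AlgebraicGeometry Pool.Agent.H914

namespace Pool.Agent.Helper912

/-- Finitely many nonconstant affine functions are nonzero at infinitely many rational numbers. -/
lemma infinite_generic {ι : Type*} [Finite ι] (a b : ι → ℚ) (hb : ∀ i, b i ≠ 0) :
    {ε : ℚ | ∀ i, a i + ε * b i ≠ 0}.Infinite := by
  have h1 : {ε : ℚ | ∀ i, a i + ε * b i ≠ 0}ᶜ ⊆ Set.range (fun i => -(a i) / b i) := by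
    intro ε hε
    simp only [Set.mem_compl_iff, Set.mem_ofPred_eq, not_forall, not_not] at hε
    obtain ⟨i, hi⟩ := hε
    refine ⟨i, ?_⟩
    have := hb i
    field_simp
    linarith
  have h2 : ({ε : ℚ | ∀ i, a i + ε * b i ≠ 0}ᶜ).Finite := (Set.finite_range _).subset h1
  intro h3
  exact Set.infinite_univ (by simpa using h3.union h2)

namespace Stratum

variable {C : ChowTheory} {X : SmVar.{0} ℂ} (Z : Stratum C X)

open Polynomial in
/-- If the fibres of a family satisfy `FibreMultiple` for the divisor classes `D + ε u`, for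
infinitely many `ε`, then they satisfy it for `D`. -/
lemma fibreMultiple_of_infinite {D u : C.CH X} {d : ℕ} {y : X.X} (hy : IsClosed {y}) (S : Set ℚ)
    (hS : S.Infinite) (h : ∀ ε ∈ S, Z.FibreMultiple d (D + ε • u) y) : Z.FibreMultiple d D y := by
  intro γ hγ
  rw [C.isMultiple_iff hy]
  let Ψ : C.CH Z.tot →ₗ[ℚ] (C.CH X ⧸ C.line y) :=
    (C.line y).mkQ ∘ₗ C.push Z.ζ ∘ₗ LinearMap.mulRight ℚ (C.pull Z.p γ)
  let F : (C.CH Z.tot)[X] :=
    (Polynomial.C (C.pull Z.ζ D) + Polynomial.X * Polynomial.C (C.pull Z.ζ u)) ^ d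
  have h1 := coeff_eq_zero_of_infinite Ψ F S hS ?_ 0
  · have h2 : F.coeff 0 = C.pull Z.ζ D ^ d := by
      simp only [F]
      rw [Polynomial.coeff_zero_eq_eval_zero]
      simp
    rw [h2] at h1
    exact (Submodule.Quotient.mk_eq_zero _).mp h1
  · intro ε hε
    have h2 : F.eval (algebraMap ℚ _ ε) = C.pull Z.ζ (D + ε • u) ^ d := by
      rw [map_add, map_smul, Algebra.smul_def]
      simp only [F, Polynomial.eval_pow, Polynomial.eval_add, Polynomial.eval_C,
        Polynomial.eval_mul, Polynomial.eval_X]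
    rw [h2]
    exact (Submodule.Quotient.mk_eq_zero _).mpr ((C.isMultiple_iff hy).mp (h ε hε γ hγ))

/-- A family over a base with trivial zero-cycles, one of whose fibres is constant cycle and
meets `Y`. -/
lemma fibreMultiple_of_ratBase {Y : Set X.X} (hYc : IsClosed Y) (hY : ConstCycle X.str Y)
    (h : Z.RatBase Y) {y : X.X} (hy : y ∈ Y) (hy' : IsClosed {y}) {D : C.CH X}
    (hD : D ∈ C.gr X 1) {d : ℕ} (hd : Z.tot.dim = Z.base.dim + d) : Z.FibreMultiple d D y := by
  intro γ hγ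
  rw [C.isMultiple_iff hy']
  obtain ⟨hB, b, hb, hT, hne⟩ := h
  have hTc : IsClosed (Z.p.hom ⁻¹' {b}) := hb.preimage Z.p.hom.continuous
  have hprop : IsProper Z.ζ.hom := by
    have : IsProper (Z.ζ.hom ≫ X.str) := by rw [Z.ζ.w]; infer_instance
    exact IsProper.of_comp Z.ζ.hom X.str
  have hIc : IsClosed (Z.ζ.hom '' (Z.p.hom ⁻¹' {b})) := Z.ζ.hom.isClosedMap _ hTc
  have hJ : JacobsonSpace X.X := LocallyOfFiniteType.jacobsonSpace X.str
  have hne' : (Y ∩ Z.ζ.hom '' (Z.p.hom ⁻¹' {b})).Nonempty := by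
    obtain ⟨x, hx1, hx2⟩ := hne
    exact ⟨_, hx2, x, hx1, rfl⟩
  obtain ⟨z, ⟨hz1, hz2⟩, hz3⟩ := nonempty_inter_closedPoints hne' (hYc.inter hIc).isLocallyClosed
  have h1 : γ = C.deg _ γ • C.cl Z.base b := C.eq_deg_smul_of_constCycle hB trivial hb hγ
  have h2 : C.pull Z.ζ D ^ d * C.pull Z.p (C.cl Z.base b) ∈
      C.supp Z.tot Z.tot.dim (Z.p.hom ⁻¹' {b}) := by
    have h3 : C.cl Z.base b ∈ C.supp Z.base Z.base.dim {b} :=
      C.cl_mem_supp rfl (isCodim_of_isClosed_singleton hb)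
    have h4 := C.pullSupp _ _ Z.p _ _ _ hb h3
    have h5 := C.pow_mem_gr (C.pull_mem_gr Z.ζ hD) d
    have h6 := C.mulSupp _ _ _ _ _ _ _ isClosed_univ hTc h5 h4
    rw [Set.univ_inter] at h6
    have h7 : d * 1 + Z.base.dim = Z.tot.dim := by omega
    rwa [h7] at h6
  rw [h1, map_smul, mul_smul_comm, map_smul]
  apply Submodule.smul_mem
  refine (?_ : ∀ w ∈ C.supp Z.tot Z.tot.dim (Z.p.hom ⁻¹' {b}), C.push Z.ζ w ∈ C.line y) _ h2
  intro w hw
  induction hw using Submodule.span_induction with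
  | mem w hw =>
    obtain ⟨x, hx, hx', rfl⟩ := hw
    have h8 := isClosed_singleton_of_isCodim hx'
    have h9 := ChowTheory.isClosed_map Z.ζ h8
    rw [C.push_cl_closed _ h8]
    have h10 : RatEq X.str (Z.ζ.hom x) y :=
      (hT _ _ ⟨x, hx, rfl⟩ hz2 h9 hz3).trans (hY _ _ hz1 hy hz3 hy')
    rw [C.cl_eq_of_ratEq h9 hy' h10]
    exact Submodule.mem_span_singleton_self _
  | zero => simp
  | add a b _ _ ha hb => rw [map_add]; exact add_mem ha hb
  | smul q a _ ha => rw [map_smul]; exact Submodule.smul_mem _ _ ha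

end Stratum

end Pool.Agent.Helper912
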