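import Pool.Agent.Helper912_CZ.LightDefs
import Pool.Agent.Helper912_CZ.Fib

/-!
# Vanishing of products of isotropic classes
-/

open CategoryTheory AlgebraicGeometry Pool.Agent.H914

namespace Pool.Agent.Helper912

variable {C : ChowTheory} {X : VarC} {c : ∀ i, NatClass C i}

namespace BaseMap

variable {n : ℕ} {α : C.CH X} (F : BaseMap C X n c α)

include F in
lemma pow_eq_zero {i : ℕ} (hi : n < i) : α ^ i = 0 := by
  have h1 := F.dim
  rw [← F.pull_a, ← map_pow, C.gr_eq_zero (p := i * 1) (by omega) (C.pow_mem_gr F.mem i), map_zero]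

lemma pow_mem : F.a ^ n ∈ C.gr F.B F.B.dim := by
  have h2 := C.pow_mem_gr F.mem n
  rw [mul_one] at h2
  rw [F.dim]
  exact h2

include F in
lemma chern_mul_pow : (c 2).val X * α ^ n = 0 := by
  obtain ⟨γ, hγ, hs⟩ := F.chern
  have hJ : JacobsonSpace F.B.X := LocallyOfFiniteType.jacobsonSpace F.B.str
  have hΔ : IsClosed F.Δ := F.closed
  have hne' : (F.Δᶜ : Set F.B.X).Nonempty := Set.nonempty_compl.mpr F.ne
  obtain ⟨b, hb, hb'⟩ := nonempty_inter_closedPoints hne' hΔ.isOpen_compl.isLocallyClosed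
  have hb2 : IsClosed {b} := hb'
  have h1 := F.pow_mem
  rw [← F.pull_a, ← map_pow]
  have h3 : F.a ^ n = C.deg F.B (F.a ^ n) • C.cl F.B b :=
    C.eq_deg_smul_of_constCycle F.triv trivial hb2 h1
  have h4 : C.pull F.f γ * C.pull F.f (F.a ^ n) = 0 := by
    rw [← map_mul, C.gr_eq_zero (p := 2 + F.B.dim) (by omega) (C.mul_mem_gr hγ h1), map_zero]
  have h5 : C.cl F.B b ∈ C.supp F.B F.B.dim {b} :=
    C.cl_mem_supp rfl (isCodim_of_isClosed_singleton hb2)
  have h6 := C.pullSupp _ _ F.f _ _ _ hb2 h5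
  have h7 := C.mulSupp _ _ _ _ _ _ _ (hΔ.preimage F.f.hom.continuous)
    (hb2.preimage F.f.hom.continuous) hs h6
  have h8 : (onPt F.f ⁻¹' F.Δ) ∩ (onPt F.f ⁻¹' {b}) = (∅ : Set (Pt X)) := by
    rw [Set.eq_empty_iff_forall_notMem]
    rintro x ⟨hx1, hx2⟩
    have hx3 : onPt F.f x = b := hx2
    have hx4 : onPt F.f x ∈ F.Δ := hx1
    rw [hx3] at hx4
    exact hb hx4
  have h9 : ∀ z ∈ C.supp X (2 + F.B.dim) ((onPt F.f ⁻¹' F.Δ) ∩ (onPt F.f ⁻¹' {b})), z = 0 := by
    intro z hz
    rw [h8] at hz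
    induction hz using Submodule.span_induction with
    | mem z hz =>
      obtain ⟨x, hx, -, -⟩ := hz
      exact absurd hx (Set.notMem_empty x)
    | zero => rfl
    | add a b _ _ ha hb => rw [ha, hb, add_zero]
    | smul q a _ ha => rw [ha, smul_zero]
  have h11 : (c 2).val X = C.pull F.f γ + ((c 2).val X - C.pull F.f γ) := by abel
  rw [h11, add_mul, h4, zero_add, h3, map_smul, mul_smul_comm, h9 _ h7, smul_zero]

end BaseMap

lemma pow_eq_zero_of_lightFibred {n : ℕ} {α : C.CH X} (h : LightFibred n c α) {i : ℕ}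
    (hi : n < i) : α ^ i = 0 := by
  obtain ⟨M, ⟨F⟩⟩ := h
  apply M.Φ.symm.injective
  rw [map_pow, map_zero]
  exact F.pow_eq_zero hi

lemma mul_pow_eq_zero_of_lightFibred {n : ℕ} {α : C.CH X} (h : LightFibred n c α) :
    (c 2).val X * α ^ n = 0 := by
  obtain ⟨M, ⟨F⟩⟩ := h
  apply M.Φ.symm.injective
  rw [map_mul, map_pow, map_zero, ← M.chern 2, AlgEquiv.symm_apply_apply]
  exact F.chern_mul_pow

/-- The products of Chern classes of codimension two. -/
lemma chernProd_two (h1 : (c 1).val X = 0) (k : ℕ → ℕ) (hk : chernDeg X k = 2) :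
    C.chernProd X c k = 0 ∨ C.chernProd X c k = (c 2).val X := by
  rw [chernDeg] at hk
  have hle : ∀ i ∈ Finset.Icc 1 X.dim, i * k i ≤ 2 := by
    intro i hi
    rw [← hk]
    exact Finset.single_le_sum (f := fun i => i * k i) (fun _ _ => Nat.zero_le _) hi
  have hdim : 1 ≤ X.dim := by
    by_contra h
    have h2 : Finset.Icc 1 X.dim = ∅ := Finset.Icc_eq_empty (by omega)
    rw [h2, Finset.sum_empty] at hk
    omega
  by_cases h11 : k 1 = 0
  · right
    have h3 : ∀ i ∈ Finset.Icc 1 X.dim, i ≠ 2 → k i = 0 := by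
      intro i hi hi2
      have h4 := hle i hi
      have h5 := (Finset.mem_Icc.mp hi).1
      rcases Nat.lt_or_ge i 2 with h6 | h6
      · have : i = 1 := by omega
        rw [this, h11]
      · by_contra h7
        have h8 : 3 ≤ i := by omega
        have h9 : 1 ≤ k i := by omega
        have : 3 * 1 ≤ i * k i := Nat.mul_le_mul h8 h9
        omega
    have h12 : 2 ∈ Finset.Icc 1 X.dim := by
      by_contra h13
      rw [Finset.sum_eq_zero] at hk
      · omega
      · intro i hi
        rw [h3 i hi (by rintro rfl; exact h13 hi), mul_zero]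
    rw [Finset.sum_eq_single 2 (fun i hi hi2 => by rw [h3 i hi hi2, mul_zero])
      (fun h => absurd h12 h)] at hk
    have h14 : k 2 = 1 := by omega
    rw [ChowTheory.chernProd, Finset.prod_eq_single 2
      (fun i hi hi2 => by rw [h3 i hi hi2, pow_zero]) (fun h => absurd h12 h), h14, pow_one]
  · left
    rw [ChowTheory.chernProd]
    apply Finset.prod_eq_zero (i := 1) (Finset.mem_Icc.mpr ⟨le_rfl, hdim⟩)
    rw [h1, zero_pow h11]

end Pool.Agent.Helper912
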