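import Pool.Agent.Helper912_CZ.ModelDefs

/-!
# Fibrations over varieties of half the dimension
-/

open CategoryTheory AlgebraicGeometry Pool.Agent.H914

namespace Pool.Agent.Helper912

/-- A morphism `f` from `X` to an `n`-dimensional variety `B` with trivial group of zero-cycles,
such that `α` is the pull-back of a divisor class `a` on `B`, and the class `c₂(X)` is the
pull-back of a class from `B` up to a cycle supported over a proper closed subset `Δ` of `B` (for
example a Lagrangian fibration with discriminant `Δ`). -/
structure BaseMap (C : ChowTheory) (X : VarC) (n : ℕ) (c : ∀ i, NatClass C i) (α : C.CH X) where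
  /-- the base -/
  B : VarC
  /-- the morphism -/
  f : X ⟶ B
  /-- the divisor class on the base -/
  a : C.CH B
  /-- the discriminant -/
  Δ : Set (Pt B)
  dim : B.dim = n
  triv : ConstCycle B.str Set.univ
  mem : a ∈ C.gr B 1
  pull_a : C.pull f a = α
  closed : ClosedIn Δ
  ne : Δ ≠ Set.univ
  chern : ∃ γ ∈ C.gr B 2, (c 2).val X - C.pull f γ ∈ C.supp X 2 (onPt f ⁻¹' Δ)

/-- The divisor class `α` is given by a fibration over an `n`-dimensional variety on some model of
`X`. -/
def LightFibred {C : ChowTheory} {X : VarC} (n : ℕ) (c : ∀ i, NatClass C i) (α : C.CH X) : Prop :=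
  ∃ M : Model C X c, Nonempty (BaseMap C M.X' n c (M.Φ.symm α))

end Pool.Agent.Helper912
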