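import Pool.Agent.Helper912_CZ.Defs

/-!
# Models and spaces of divisor classes
-/

open CategoryTheory AlgebraicGeometry Pool.Agent.H914

namespace Pool.Agent.Helper912

/-- A variety `X'` with an isomorphism of the graded Chow rings of `X'` and `X` which preserves
degrees and the classes `c`; for example a holomorphic symplectic variety `X'` birational to a
holomorphic symplectic variety `X` and the Chern classes `c` (Rieß). -/
structure Model (C : ChowTheory) (X : VarC) (c : ∀ i, NatClass C i) where
  /-- the other variety -/
  X' : VarC
  /-- the isomorphism of Chow rings -/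
  Φ : C.CH X' ≃ₐ[ℚ] C.CH X
  dim : X'.dim = X.dim
  gr : ∀ p a, a ∈ C.gr X' p ↔ Φ a ∈ C.gr X p
  deg : ∀ a, C.deg X (Φ a) = C.deg X' a
  chern : ∀ i, Φ ((c i).val X') = (c i).val X

/-- A space of divisor classes with a quadratic form. -/
structure DivSpace (C : ChowTheory) (X : VarC) where
  /-- the space of divisor classes -/
  V : Submodule ℚ (C.CH X)
  le : V ≤ C.gr X 1
  /-- the quadratic form -/
  q : QuadraticForm ℚ V

namespace DivSpace

variable {C : ChowTheory} {X : VarC} (V : DivSpace C X)

/-- The type of the elements of the space of divisor classes. -/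
abbrev Elt : Type := V.V

/-- The class in the Chow ring of an element of the space of divisor classes. -/
def cls (D : V.Elt) : C.CH X := D

/-- The value of the quadratic form. -/
def form (D : V.Elt) : ℚ := V.q D

/-- The bilinear form (the polar form of the quadratic form). -/
def pair (D E : V.Elt) : ℚ := QuadraticMap.polar V.q D E

/-- The Fujiki relation: the degree of `D^{2n}` is a nonzero constant times `q(D)^n`. -/
def Fujiki (n : ℕ) : Prop := ∃ a : ℚ, a ≠ 0 ∧
  ∀ D : V.Elt, C.deg X (V.cls D ^ (2 * n)) = a * V.form D ^ n

end DivSpace

end Pool.Agent.Helper912
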