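import Pool.Agent.Helper912_CZ.Stratum

/-!
# Nodal degenerations
-/

open CategoryTheory AlgebraicGeometry Pool.Agent.H914

namespace Pool.Agent.Helper912

namespace Stratum

variable {C : ChowTheory} {X : SmVar.{0} ℂ} (Z : Stratum C X)

lemma vert_mul_top {v : C.CH Z.tot} (hv : v ∈ Z.vert) {γ : C.CH Z.base}
    (hγ : γ ∈ C.gr Z.base Z.base.dim) : v * C.pull Z.p γ = 0 := by
  obtain ⟨w, hw, rfl⟩ := Z.mem_vert hv
  rw [← map_mul, C.gr_eq_zero (Nat.lt_add_of_pos_left one_pos) (C.mul_mem_gr hw hγ), map_zero]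

/-- Zero-cycles on a fibre involving the branch classes are zero. -/
lemma top_zero (hb : Z.OverBase) (ht : Z.TransRat) (hμ : Z.BranchInv) {D : C.CH X}
    (hD : D ∈ C.gr X 1) {k : Z.ι → ℚ} (hTD : Z.TransDiv D k) {i : Z.ι} (hk : k i ≠ 0)
    (l : List Z.ι) (a d : ℕ) (hd : Z.tot.dim = Z.base.dim + d) (had : a + 1 + l.length = d)
    {γ : C.CH Z.base} (hγ : γ ∈ C.gr Z.base Z.base.dim) :
    C.push Z.ζ (C.pull Z.ζ D ^ a * ((i :: l).map Z.μ).prod * C.pull Z.p γ) = 0 := by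
  obtain ⟨v, w, hv, hw, hrel⟩ := Z.relation hb ht hμ hD hTD i l a Z.base.dim γ hγ (by omega)
  have h1 : v * γ = 0 :=
    C.gr_eq_zero (Nat.lt_add_of_pos_left one_pos) (C.mul_mem_gr hv hγ)
  have h2 : Z.linTerm w l * C.pull Z.p γ = 0 := by
    have hle : Submodule.span ℚ {z | ∃ (l' : List Z.ι) (v : C.CH Z.base),
        v ∈ C.gr Z.base 1 ∧ l'.length + 1 = l.length ∧ z = (l'.map Z.μ).prod * C.pull Z.p v} ≤
        LinearMap.ker (LinearMap.mulRight ℚ (C.pull Z.p γ)) := by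
      rw [Submodule.span_le]
      rintro _ ⟨l', v', hv', hl', rfl⟩
      rw [SetLike.mem_coe, LinearMap.mem_ker, LinearMap.mulRight_apply, mul_assoc, ← map_mul,
        C.gr_eq_zero (Nat.lt_add_of_pos_left one_pos) (C.mul_mem_gr hv' hγ), map_zero, mul_zero]
    exact hle (Z.linTerm_mem w hw l)
  rw [h1, map_zero, mul_zero, map_zero, smul_zero, add_zero, mul_assoc, mul_assoc, h2, mul_zero,
    map_zero, add_zero] at hrel
  have h6 : ((a : ℚ) + 1) * k i ≠ 0 := mul_ne_zero (by positivity) hk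
  rw [← mul_assoc] at hrel
  exact (smul_eq_zero.mp hrel).resolve_left h6

lemma add_vert_pow {x v : C.CH Z.tot} (hv : v ∈ Z.vert) {γ : C.CH Z.base}
    (hγ : γ ∈ C.gr Z.base Z.base.dim) (m : ℕ) :
    (x + v) ^ m * C.pull Z.p γ = x ^ m * C.pull Z.p γ := by
  induction m with
  | zero => simp
  | succ m ih =>
    rw [pow_succ', mul_assoc, ih, add_mul, mul_left_comm v, Z.vert_mul_top hv hγ, mul_zero,
      add_zero, ← mul_assoc, pow_succ']

/-- On a fibre, a divisor class may be replaced by its translate in a zero-cycle. -/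
lemma push_translate (hb : Z.OverBase) (ht : Z.TransRat) (hμ : Z.BranchInv) {D : C.CH X}
    (hD : D ∈ C.gr X 1) {k : Z.ι → ℚ} (hTD : Z.TransDiv D k) {i : Z.ι} (hk : k i ≠ 0)
    (d : ℕ) (hd : Z.tot.dim = Z.base.dim + d) {γ : C.CH Z.base}
    (hγ : γ ∈ C.gr Z.base Z.base.dim) (m : ℕ) (hm : m ≤ d) :
    C.push Z.ζ (C.pull Z.ζ D ^ (d - m) * (C.pull (Z.g i).hom (C.pull Z.ζ D)) ^ m *
      C.pull Z.p γ) = C.push Z.ζ (C.pull Z.ζ D ^ d * C.pull Z.p γ) := by
  have hv₀ := hTD i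
  have hv₀' : C.pull (Z.g i).hom (C.pull Z.ζ D) = (C.pull Z.ζ D + k i • Z.μ i) +
      (C.pull (Z.g i).hom (C.pull Z.ζ D) - C.pull Z.ζ D - k i • Z.μ i) := by abel
  rw [hv₀', mul_assoc, Z.add_vert_pow hv₀ hγ, ← mul_assoc, add_pow, Finset.mul_sum,
    Finset.sum_mul, map_sum, Finset.sum_eq_single m]
  · simp only [Nat.sub_self, pow_zero, mul_one, Nat.choose_self, Nat.cast_one]
    rw [← pow_add, Nat.sub_add_cancel hm]
  · intro j hj hjm
    have hjm' : j < m := by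
      have := Finset.mem_range.mp hj
      omega
    obtain ⟨r, hr⟩ : ∃ r, m - j = r + 1 := ⟨m - j - 1, by omega⟩
    have h1 := Z.top_zero hb ht hμ hD hTD hk (List.replicate r i) (d - m + j) d hd
      (by rw [List.length_replicate]; omega) hγ
    have h2 : ((i :: List.replicate r i).map Z.μ).prod = Z.μ i ^ (r + 1) := by
      rw [← List.replicate_succ, List.map_replicate, List.prod_replicate]
    rw [h2] at h1
    have h3 : C.pull Z.ζ D ^ (d - m) * (C.pull Z.ζ D ^ j * (k i • Z.μ i) ^ (m - j) *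
        ((m.choose j : ℕ) : C.CH Z.tot)) * C.pull Z.p γ =
        (k i ^ (r + 1) * (m.choose j : ℚ)) • (C.pull Z.ζ D ^ (d - m + j) * Z.μ i ^ (r + 1) *
          C.pull Z.p γ) := by
      rw [hr, pow_add, smul_pow]
      simp only [Algebra.smul_def, map_mul, map_natCast, map_pow]
      ring
    rw [h3, map_smul, h1, smul_zero]
  · intro h
    exact absurd (Finset.mem_range.mpr (Nat.lt_succ_self m)) h

end Stratum

namespace NodalData

variable {C : ChowTheory} {X : SmVar.{0} ℂ} {Z Z' : Stratum C X} (N : NodalData Z Z')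

lemma push_T (hs : N.Sections) (hg : N.Glued) (hr : N.Ruled) {z : C.CH N.T}
    (hz : z ∈ C.gr N.T N.T.dim) :
    C.push (N.ν ≫ Z.ζ) z = C.push Z'.ζ (C.push N.π z) := by
  induction hz using Submodule.span_induction with
  | mem z hz =>
    obtain ⟨t, -, ht, rfl⟩ := hz
    have h1 := isClosed_singleton_of_isCodim ht
    have h2 := ChowTheory.isClosed_map N.π h1
    have h3 := ChowTheory.isClosed_map N.s₁ h2
    rw [C.push_cl_closed _ h1, C.push_cl_closed _ h1, C.push_cl_closed _ h2]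
    have h4 : N.π.hom (N.s₁.hom (N.π.hom t)) = N.π.hom t := by
      rw [← Scheme.Hom.comp_apply, ← SmVar.comp_hom, hs.2]
      rfl
    have h5 : RatEq N.T.str t (N.s₁.hom (N.π.hom t)) := hr.2 _ _ h1 h3 h4.symm
    have h6 := h5.map (N.ν ≫ Z.ζ).hom (N.ν ≫ Z.ζ).w
    have h7 : (N.ν ≫ Z.ζ).hom (N.s₁.hom (N.π.hom t)) = Z'.ζ.hom (N.π.hom t) := by
      rw [← Scheme.Hom.comp_apply, ← SmVar.comp_hom, hg.1]
    rw [h7] at h6
    exact C.cl_eq_of_ratEq (ChowTheory.isClosed_map _ h1) (ChowTheory.isClosed_map _ h2) h6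
  | zero => simp
  | add a b _ _ ha hb => simp only [map_add, ha, hb]
  | smul q a _ ha => simp only [map_smul, ha]

lemma push_π_one (hr : N.Ruled) : C.push N.π 1 = 0 :=
  (C.pushGraded N.T Z'.tot N.π 0 1 (C.one_mem _)).2 (by rw [hr.1]; omega)

lemma push_π_pow (hs : N.Sections) (hr : N.Ruled) {κ : ℚ} {δ : C.CH N.T} {a : C.CH Z'.tot}
    (hδ : δ = κ • C.push N.s₀ 1 + C.pull N.π a) (j : ℕ) :
    C.push N.π (δ ^ (j + 1)) =
      κ • ∑ i ∈ Finset.range (j + 1), a ^ (j - i) * (C.pull N.s₀ δ) ^ i := by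
  have h1 : ∀ b : C.CH N.T, C.push N.π (b * C.push N.s₀ 1) = C.pull N.s₀ b := by
    intro b
    have h2 := C.proj N.s₀ 1 b
    rw [one_mul, mul_comm] at h2
    rw [← h2, ← C.push_comp, hs.1, C.push_id]
  induction j with
  | zero =>
    have h3 : C.push N.π (C.push N.s₀ 1) = 1 := by
      have := h1 1
      rwa [one_mul, map_one (C.pull N.s₀)] at this
    have h4 := C.proj N.π 1 a
    rw [one_mul, N.push_π_one hr, zero_mul] at h4
    rw [zero_add, pow_one]
    conv_lhs => rw [hδ]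
    rw [map_add, map_smul, h3, h4]
    simp
  | succ j ih =>
    have h5 : δ ^ (j + 1 + 1) = κ • (δ ^ (j + 1) * C.push N.s₀ 1) +
        δ ^ (j + 1) * C.pull N.π a := by
      rw [pow_succ]
      conv_lhs => rw [hδ, mul_add, mul_smul_comm, ← hδ]
    rw [h5, map_add, map_smul, h1, C.proj, ih, map_pow, Finset.sum_range_succ _ (j + 1),
      smul_add, add_comm]
    congr 1
    · rw [smul_mul_assoc]
      congr 1
      rw [Finset.sum_mul]
      apply Finset.sum_congr rfl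
      intro i hi
      have : i < j + 1 := Finset.mem_range.mp hi
      have h6 : j + 1 - i = (j - i) + 1 := by omega
      rw [h6, pow_succ]
      ring
    · simp

/-- In a nodal degeneration, the top power of a divisor class on the locus of nodes is a multiple
of the class of `y` if this holds for the fibres. -/
lemma fibreMultiple_of_ne (hs : N.Sections) (hg : N.Glued) (hr : N.Ruled) (hc : N.Cross)
    (hf : N.FibreClass) (hb : Z'.OverBase) (ht : Z'.TransRat) (hμ : Z'.BranchInv)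
    {D : C.CH X} (hD : D ∈ C.gr X 1) {k : Z'.ι → ℚ} (hTD : Z'.TransDiv D k) (hk : k N.i ≠ 0)
    {κ : ℚ} (hκ : κ ≠ 0) (hdiv : N.DivT D κ) {d : ℕ} (hd : Z'.tot.dim = Z'.base.dim + d)
    {y : X.X} (hy : IsClosed {y}) (hgood : Z.FibreMultiple (d + 1) D y) :
    Z'.FibreMultiple d D y := by
  intro γ hγ
  rw [C.isMultiple_iff hy]
  obtain ⟨e, he, hfib⟩ := hf
  obtain ⟨a, ha⟩ := hdiv
  have hφγ : C.push N.φ γ ∈ C.gr Z.base Z.base.dim := (C.push_mem_top N.φ hγ).1
  have h1 := (C.isMultiple_iff hy).mp (hgood _ hφγ)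
  set δ := C.pull (N.ν ≫ Z.ζ) D with hδ
  -- the zero-cycle on `T`
  have h2 : C.push (N.ν ≫ Z.ζ) (δ ^ (d + 1) * C.pull N.π (C.pull Z'.p γ)) =
      e • C.push Z.ζ (C.pull Z.ζ D ^ (d + 1) * C.pull Z.p (C.push N.φ γ)) := by
    rw [hδ, C.pull_comp, ← map_pow, mul_comm, C.push_comp, C.proj, hfib γ hγ, smul_mul_assoc,
      map_smul, mul_comm (C.pull Z.p (C.push N.φ γ))]
  have hz : δ ^ (d + 1) * C.pull N.π (C.pull Z'.p γ) ∈ C.gr N.T N.T.dim := by
    have h3 := C.mul_mem_gr (C.pow_mem_gr (C.pull_mem_gr (N.ν ≫ Z.ζ) hD) (d + 1))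
      (C.pull_mem_gr N.π (C.pull_mem_gr Z'.p hγ))
    have h4 : (d + 1) * 1 + Z'.base.dim = N.T.dim := by rw [hr.1, hd]; omega
    rwa [h4] at h3
  rw [N.push_T hs hg hr hz, C.proj, N.push_π_pow hs hr ha d] at h2
  -- the translate
  have hβ : C.pull N.s₀ δ = C.pull (Z'.g N.i).hom (C.pull Z'.ζ D) := by
    rw [hδ, ← C.pull_comp, ← C.pull_comp, ← hg.2]
  have hα : a = C.pull Z'.ζ D + -(κ • C.pull N.s₁ (C.push N.s₀ 1)) := by
    have h3 : C.pull N.s₁ δ = C.pull Z'.ζ D := by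
      rw [hδ, ← C.pull_comp, hg.1]
    rw [← h3, ha, map_add, map_smul, ← C.pull_comp N.s₁, hs.2, C.pull_id]
    abel
  have hv : -(κ • C.pull N.s₁ (C.push N.s₀ 1)) ∈ Z'.vert :=
    neg_mem (Submodule.smul_mem _ _ hc)
  have h5 : C.push Z'.ζ ((κ • ∑ i ∈ Finset.range (d + 1), a ^ (d - i) * (C.pull N.s₀ δ) ^ i) *
      C.pull Z'.p γ) = (κ * (d + 1)) • C.push Z'.ζ (C.pull Z'.ζ D ^ d * C.pull Z'.p γ) := by
    rw [smul_mul_assoc, map_smul, mul_smul]
    congr 1
    rw [Finset.sum_mul, map_sum]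
    have h6 : ∀ i ∈ Finset.range (d + 1),
        C.push Z'.ζ (a ^ (d - i) * (C.pull N.s₀ δ) ^ i * C.pull Z'.p γ) =
          C.push Z'.ζ (C.pull Z'.ζ D ^ d * C.pull Z'.p γ) := by
      intro i hi
      have hi' : i ≤ d := Nat.lt_succ_iff.mp (Finset.mem_range.mp hi)
      rw [mul_right_comm, hα, Z'.add_vert_pow hv hγ, mul_right_comm, hβ]
      exact Z'.push_translate hb ht hμ hD hTD hk d hd hγ i hi'
    rw [Finset.sum_congr rfl h6, Finset.sum_const, Finset.card_range, ← Nat.cast_smul_eq_nsmul ℚ]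
    push_cast
    rfl
  rw [h5] at h2
  have h7 : (κ * ((d : ℚ) + 1)) • C.push Z'.ζ (C.pull Z'.ζ D ^ d * C.pull Z'.p γ) ∈ C.line y := by
    rw [h2]
    exact Submodule.smul_mem _ _ h1
  have h8 : κ * ((d : ℚ) + 1) ≠ 0 := mul_ne_zero hκ (by positivity)
  have h9 := Submodule.smul_mem _ (κ * ((d : ℚ) + 1))⁻¹ h7
  rwa [smul_smul, inv_mul_cancel₀ h8, one_smul] at h9

end NodalData

end Pool.Agent.Helper912
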