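import Pool.Agent.Helper912_CZ.NodalFibreDefs
import Pool.Agent.Helper912_CZ.Light

/-!
# Zero-cycles on the loci of nodes of the general degenerate fibres
-/

open CategoryTheory AlgebraicGeometry Pool.Agent.H914

namespace Pool.Agent.Helper912

namespace NodalFibre

variable {C : ChowTheory} {X : VarC} (N : NodalFibre X)

lemma pull_ζ (D : C.CH X) : C.pull N.ζ D = C.pull N.s₁ (C.pull N.ν D) := by
  rw [ζ, C.pull_comp]

lemma divT_eq (hg : N.Glued) (hn : N.Normal C) {D : C.CH X} {κ : ℚ}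
    (h : N.DivT C D κ) : C.pull N.ν D = κ • C.push N.s₀ 1 + C.pull N.π (C.pull N.ζ D) := by
  obtain ⟨a, ha⟩ := h
  have h1 : C.pull N.ζ D = a := by
    rw [pull_ζ, ha, map_add, map_smul, hn.1, smul_zero, zero_add, ← C.pull_comp, hg.2.1,
      C.pull_id]
  rw [h1, ha]

/-- The translate of a divisor class. -/
lemma pull_g (hg : N.Glued) (hn : N.Normal C) {D : C.CH X} {κ : ℚ}
    (h : N.DivT C D κ) : C.pull N.g.hom (C.pull N.ζ D) = C.pull N.ζ D + κ • N.μ C := by
  have h1 := N.divT_eq hg hn h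
  rw [← C.pull_comp, ← hg.2.2, C.pull_comp, h1, map_add, map_smul, ← C.pull_comp N.s₀ N.π, hg.1,
    C.pull_id, μ, add_comm]

lemma pull_s₀ (hg : N.Glued) (D : C.CH X) :
    C.pull N.s₀ (C.pull N.ν D) = C.pull N.g.hom (C.pull N.ζ D) := by
  rw [← C.pull_comp, hg.2.2, C.pull_comp]

lemma ratEq_g {n : ℕ} (hg : N.Glued) (hr : N.Ruled n) (x : N.A.X) (hx : IsClosed {x}) :
    RatEq X.str (N.ζ.hom (N.g.hom.hom x)) (N.ζ.hom x) := by
  have h0 := ChowTheory.isClosed_map N.s₀ hx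
  have h1 := ChowTheory.isClosed_map N.s₁ hx
  have e0 : N.π.hom (N.s₀.hom x) = x := by
    rw [← Scheme.Hom.comp_apply, ← SmVar.comp_hom, hg.1]
    rfl
  have e1 : N.π.hom (N.s₁.hom x) = x := by
    rw [← Scheme.Hom.comp_apply, ← SmVar.comp_hom, hg.2.1]
    rfl
  have h2 : RatEq N.T.str (N.s₀.hom x) (N.s₁.hom x) := hr.2.2 _ _ h0 h1 (by
    change N.π.hom _ = N.π.hom _
    rw [e0, e1])
  have h3 := h2.map N.ν.hom N.ν.w
  have h4 : N.ν.hom (N.s₁.hom x) = N.ζ.hom x := by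
    rw [← Scheme.Hom.comp_apply, ← SmVar.comp_hom]
    rfl
  have h5 : N.ν.hom (N.s₀.hom x) = N.ζ.hom (N.g.hom.hom x) := by
    rw [← Scheme.Hom.comp_apply, ← SmVar.comp_hom, hg.2.2, SmVar.comp_hom,
      Scheme.Hom.comp_apply]
  rw [h4, h5] at h3
  exact h3

lemma μ_mem {n : ℕ} (hr : N.Ruled n) : N.μ C ∈ C.gr N.A 1 := by
  rw [μ]
  apply C.pull_mem_gr
  apply (C.pushGraded N.A N.T N.s₀ 0 1 (C.one_mem _)).1 1
  have h1 := hr.1
  have h2 := hr.2.1
  omega

open Polynomial in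
/-- Zero-cycles involving the normal class are zero. -/
lemma push_μ {n : ℕ} (hg : N.Glued) (hr : N.Ruled n) (hn : N.Normal C) {D : C.CH X}
    (hD : D ∈ C.gr X 1) {κ : ℚ} (hκ : κ ≠ 0) (h : N.DivT C D κ) (a l : ℕ)
    (hal : a + l + 1 = N.A.dim) :
    C.push N.ζ (C.pull N.ζ D ^ a * N.μ C ^ (l + 1)) = 0 := by
  obtain ⟨u, hu⟩ : ∃ u, u = C.pull N.ζ D := ⟨_, rfl⟩
  have hug : C.pull N.g.hom u = u + κ • N.μ C := by rw [hu]; exact N.pull_g hg hn h
  obtain ⟨x, hx⟩ : ∃ x, x = u ^ (a + 1) * N.μ C ^ l := ⟨_, rfl⟩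
  have hxm : x ∈ C.gr N.A N.A.dim := by
    have h1 : u ∈ C.gr N.A 1 := by rw [hu]; exact C.pull_mem_gr _ hD
    have h2 := C.mul_mem_gr (C.pow_mem_gr h1 (a + 1)) (C.pow_mem_gr (N.μ_mem hr (C := C)) l)
    have h3 : (a + 1) * 1 + l * 1 = N.A.dim := by omega
    rw [h3] at h2
    rw [hx]
    exact h2
  have hiter : ∀ t : ℕ, (⇑(C.pull N.g.hom))^[t] x ∈ C.gr N.A N.A.dim ∧
      C.push N.ζ ((⇑(C.pull N.g.hom))^[t] x) = C.push N.ζ x := by
    intro t
    induction t with
    | zero => exact ⟨hxm, rfl⟩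
    | succ t ih =>
      rw [Function.iterate_succ_apply']
      exact ⟨C.pull_mem_gr _ ih.1, (C.pull_top (N.ratEq_g hg hr) ih.1).trans ih.2⟩
  have hit : ∀ t : ℕ, (⇑(C.pull N.g.hom))^[t] x =
      (u + t * (κ • N.μ C)) ^ (a + 1) * N.μ C ^ l := by
    intro t
    induction t with
    | zero => rw [hx]; simp
    | succ t ih =>
      rw [Function.iterate_succ_apply', ih, map_mul, map_pow, map_pow, map_add, map_mul, map_smul,
        hn.2, hug, map_natCast]
      push_cast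
      ring
  let F : (C.CH N.A)[X] := (Polynomial.C u + Polynomial.X * Polynomial.C (κ • N.μ C)) ^ (a + 1) *
    Polynomial.C (N.μ C ^ l)
  have hF : ∀ t : ℕ, C.push N.ζ (F.eval (t : C.CH N.A)) = C.push N.ζ x := by
    intro t
    rw [← (hiter t).2, hit]
    congr 1
    simp only [F, Polynomial.eval_mul, Polynomial.eval_pow, Polynomial.eval_add,
      Polynomial.eval_C, Polynomial.eval_X]
  have h1 := coeff_one_eq_zero (C.push N.ζ) F _ hF
  have h2 : F.coeff 1 = (((a : ℚ) + 1) * κ) • (u ^ a * N.μ C ^ (l + 1)) := by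
    simp only [F]
    rw [Polynomial.coeff_mul_C, Stratum.coeff_one_pow]
    simp only [Polynomial.coeff_add, Polynomial.coeff_C_zero, Polynomial.mul_coeff_zero,
      Polynomial.coeff_X_zero, zero_mul, add_zero, Polynomial.coeff_C_succ, Polynomial.coeff_X_mul,
      zero_add]
    simp only [Algebra.smul_def, map_mul, map_add, map_natCast, map_one]
    ring
  rw [h2, map_smul] at h1
  have h3 : ((a : ℚ) + 1) * κ ≠ 0 := mul_ne_zero (by positivity) hκ
  rw [← hu]
  exact (smul_eq_zero.mp h1).resolve_left h3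

/-- A divisor class may be replaced by its translate in a zero-cycle. -/
lemma push_translate {n : ℕ} (hg : N.Glued) (hr : N.Ruled n) (hn : N.Normal C) {D : C.CH X}
    (hD : D ∈ C.gr X 1) {κ : ℚ} (hκ : κ ≠ 0) (h : N.DivT C D κ) (m : ℕ) (hm : m ≤ N.A.dim) :
    C.push N.ζ (C.pull N.ζ D ^ (N.A.dim - m) * (C.pull N.g.hom (C.pull N.ζ D)) ^ m) =
      C.push N.ζ (C.pull N.ζ D ^ N.A.dim) := by
  rw [N.pull_g hg hn h, add_pow, Finset.mul_sum, map_sum, Finset.sum_eq_single m]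
  · simp only [Nat.sub_self, pow_zero, mul_one, Nat.choose_self, Nat.cast_one]
    rw [← pow_add, Nat.sub_add_cancel hm]
  · intro j hj hjm
    have hjm' : j < m := by
      have := Finset.mem_range.mp hj
      omega
    obtain ⟨r, hr'⟩ : ∃ r, m - j = r + 1 := ⟨m - j - 1, by omega⟩
    have h1 := N.push_μ hg hr hn hD hκ h (N.A.dim - m + j) r (by omega)
    have h3 : C.pull N.ζ D ^ (N.A.dim - m) * (C.pull N.ζ D ^ j * (κ • N.μ C) ^ (m - j) *
        ((m.choose j : ℕ) : C.CH N.A)) =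
        (κ ^ (r + 1) * (m.choose j : ℚ)) • (C.pull N.ζ D ^ (N.A.dim - m + j) *
          N.μ C ^ (r + 1)) := by
      rw [hr', pow_add, smul_pow]
      simp only [Algebra.smul_def, map_mul, map_natCast, map_pow]
      ring
    rw [h3, map_smul, h1, smul_zero]
  · intro h
    exact absurd (Finset.mem_range.mpr (Nat.lt_succ_self m)) h

lemma push_T {n : ℕ} (hg : N.Glued) (hr : N.Ruled n) {z : C.CH N.T}
    (hz : z ∈ C.gr N.T N.T.dim) : C.push N.ν z = C.push N.ζ (C.push N.π z) := by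
  induction hz using Submodule.span_induction with
  | mem z hz =>
    obtain ⟨t, -, ht, rfl⟩ := hz
    have h1 := isClosed_singleton_of_isCodim ht
    have h2 := ChowTheory.isClosed_map N.π h1
    have h3 := ChowTheory.isClosed_map N.s₁ h2
    rw [C.push_cl_closed _ h1, C.push_cl_closed _ h1, C.push_cl_closed _ h2]
    have h4 : N.π.hom (N.s₁.hom (N.π.hom t)) = N.π.hom t := by
      rw [← Scheme.Hom.comp_apply, ← SmVar.comp_hom, hg.2.1]
      rfl
    have h5 : RatEq N.T.str t (N.s₁.hom (N.π.hom t)) := hr.2.2 _ _ h1 h3 h4.symm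
    have h6 := h5.map N.ν.hom N.ν.w
    have h7 : N.ν.hom (N.s₁.hom (N.π.hom t)) = N.ζ.hom (N.π.hom t) := by
      rw [← Scheme.Hom.comp_apply, ← SmVar.comp_hom]
      rfl
    rw [h7] at h6
    exact C.cl_eq_of_ratEq (ChowTheory.isClosed_map _ h1) (ChowTheory.isClosed_map _ h2) h6
  | zero => simp
  | add a b _ _ ha hb => simp only [map_add, ha, hb]
  | smul q a _ ha => simp only [map_smul, ha]

lemma push_π_one {n : ℕ} (hr : N.Ruled n) : C.push N.π 1 = 0 :=
  (C.pushGraded N.T N.A N.π 0 1 (C.one_mem _)).2 (by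
    have h1 := hr.1
    have h2 := hr.2.1
    omega)

lemma push_π_pow {n : ℕ} (hg : N.Glued) (hr : N.Ruled n) {κ : ℚ} {δ : C.CH N.T} {a : C.CH N.A}
    (hδ : δ = κ • C.push N.s₀ 1 + C.pull N.π a) (j : ℕ) :
    C.push N.π (δ ^ (j + 1)) =
      κ • ∑ i ∈ Finset.range (j + 1), a ^ (j - i) * (C.pull N.s₀ δ) ^ i := by
  have h1 : ∀ b : C.CH N.T, C.push N.π (b * C.push N.s₀ 1) = C.pull N.s₀ b := by
    intro b
    have h2 := C.proj N.s₀ 1 b
    rw [one_mul, mul_comm] at h2
    rw [← h2, ← C.push_comp, hg.1, C.push_id]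
  induction j with
  | zero =>
    have h3 : C.push N.π (C.push N.s₀ 1) = 1 := by
      have := h1 1
      rwa [one_mul, map_one (C.pull N.s₀)] at this
    have h4 := C.proj N.π 1 a
    rw [one_mul, N.push_π_one hr, zero_mul] at h4
    rw [zero_add, pow_one]
    conv_lhs => rw [hδ]
    rw [map_add, map_smul, h3, h4]
    simp
  | succ j ih =>
    have h5 : δ ^ (j + 1 + 1) = κ • (δ ^ (j + 1) * C.push N.s₀ 1) +
        δ ^ (j + 1) * C.pull N.π a := by
      rw [pow_succ]
      conv_lhs => rw [hδ, mul_add, mul_smul_comm, ← hδ]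
    rw [h5, map_add, map_smul, h1, C.proj, ih, map_pow, Finset.sum_range_succ _ (j + 1),
      smul_add, add_comm]
    congr 1
    · rw [smul_mul_assoc]
      congr 1
      rw [Finset.sum_mul]
      apply Finset.sum_congr rfl
      intro i hi
      have : i < j + 1 := Finset.mem_range.mp hi
      have h6 : j + 1 - i = (j - i) + 1 := by omega
      rw [h6, pow_succ]
      ring
    · simp

/-- If `D^n` on the normalization of the fibre is a multiple of the class of `y`, then so is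
`D^{n-1}` on the locus of nodes. -/
lemma mem_line {n : ℕ} (hg : N.Glued) (hr : N.Ruled n) (hn : N.Normal C) {D : C.CH X}
    (hD : D ∈ C.gr X 1) {κ : ℚ} (hκ : κ ≠ 0) (h : N.DivT C D κ) {y : X.X}
    (hy : C.push N.ν 1 * D ^ n ∈ C.line y) : C.push N.ζ 1 * D ^ (n - 1) ∈ C.line y := by
  have hdim : N.A.dim + 1 = n := hr.1
  have hdim' : n - 1 = N.A.dim := by omega
  have hδ := N.divT_eq hg hn h
  have h2 : C.push N.ν (C.pull N.ν D ^ n) = C.push N.ν 1 * D ^ n := by
    rw [← C.proj, one_mul, map_pow (C.pull N.ν)]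
  have hz : C.pull N.ν D ^ n ∈ C.gr N.T N.T.dim := by
    have h3 := C.pow_mem_gr (C.pull_mem_gr N.ν hD) n
    rw [mul_one] at h3
    rw [hr.2.1]
    exact h3
  rw [N.push_T hg hr hz] at h2
  have h4 := N.push_π_pow hg hr hδ N.A.dim
  rw [hdim] at h4
  rw [h4, map_smul, map_sum] at h2
  have h5 : ∀ i ∈ Finset.range n,
      C.push N.ζ (C.pull N.ζ D ^ (N.A.dim - i) * (C.pull N.s₀ (C.pull N.ν D)) ^ i) =
        C.push N.ζ (C.pull N.ζ D ^ N.A.dim) := by
    intro i hi
    have hi' : i < n := Finset.mem_range.mp hi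
    rw [N.pull_s₀ hg]
    exact N.push_translate hg hr hn hD hκ h i (by omega)
  rw [Finset.sum_congr rfl h5, Finset.sum_const, Finset.card_range, ← Nat.cast_smul_eq_nsmul ℚ,
    smul_smul] at h2
  rw [← h2] at hy
  have h8 : κ * (n : ℚ) ≠ 0 := mul_ne_zero hκ (by
    have : 0 < n := by omega
    positivity)
  have h9 := Submodule.smul_mem _ (κ * (n : ℚ))⁻¹ hy
  rw [smul_smul, inv_mul_cancel₀ h8, one_smul, ← map_pow, ← hdim'] at h9
  have h10 := C.proj N.ζ 1 (D ^ (n - 1))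
  rw [one_mul] at h10
  rw [← h10]
  exact h9

end NodalFibre

namespace NodalFibration

variable {C : ChowTheory} {X : VarC} {n : ℕ} {c : ∀ i, NatClass C i}
  {V : Submodule ℚ (C.CH X)} {L : C.CH X} {Y : Set (Pt X)} (S : NodalFibration C X n c V L Y)

/-- The zero-cycles supported on the constant cycle fibre. -/
lemma fibre_mem (hX : X.dim = 2 * n) (hYc : IsClosed Y) (hY : ConstCycle X.str Y) {y : X.X}
    (hy : y ∈ Y) (hy' : IsClosed {y}) {D : C.CH X} (hD : D ∈ C.gr X 1) :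
    C.pull S.f (C.cl S.B S.b) * D ^ n ∈ C.line y := by
  have hb : IsClosed {S.b} := S.closed_b
  have hT : IsClosed (S.f.hom ⁻¹' {S.b}) := hb.preimage S.f.hom.continuous
  have hJ : JacobsonSpace X.X := LocallyOfFiniteType.jacobsonSpace X.str
  have hne : (Y ∩ S.f.hom ⁻¹' {S.b}).Nonempty := by
    obtain ⟨x, hx1, hx2⟩ := S.meets
    exact ⟨x, hx1, hx2⟩
  obtain ⟨z, ⟨hz1, hz2⟩, hz3⟩ := nonempty_inter_closedPoints hne (hYc.inter hT).isLocallyClosed
  have h5 : C.cl S.B S.b ∈ C.supp S.B S.B.dim {S.b} :=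
    C.cl_mem_supp rfl (isCodim_of_isClosed_singleton hb)
  have h6 := C.pullSupp _ _ S.f _ _ _ hb h5
  have h7 := C.pow_mem_gr hD n
  have h8 := C.mulSupp _ _ _ _ _ _ _ hT isClosed_univ h6 h7
  rw [Set.inter_univ] at h8
  have h9 : S.B.dim + n * 1 = X.dim := by
    have := S.dim
    omega
  rw [h9] at h8
  have h10 := C.eq_deg_smul_of_constCycle S.fibre_b hz2 hz3 h8
  have h11 : C.cl X z = C.cl X y := C.cl_eq_of_ratEq hz3 hy' (hY z y hz1 hy hz3 hy')
  rw [h10, h11]
  exact Submodule.smul_mem _ _ (Submodule.mem_span_singleton_self _)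

include S in
lemma pow_mul_pow_mem (hX : X.dim = 2 * n) (hYc : IsClosed Y) (hY : ConstCycle X.str Y)
    {y : X.X} (hy : y ∈ Y) (hy' : IsClosed {y}) {D : C.CH X} (hD : D ∈ C.gr X 1) :
    L ^ n * D ^ n ∈ C.line y := by
  have h1 := C.eq_deg_smul_of_constCycle S.triv trivial S.closed_b S.toBaseMap.pow_mem
  have h2 : L ^ n = C.deg S.B (S.a ^ n) • C.pull S.f (C.cl S.B S.b) := by
    have h3 : C.pull S.f S.a ^ n = L ^ n := congrArg (· ^ n) S.pull_a
    have h4 := congrArg (C.pull S.f) h1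
    rw [map_pow, map_smul] at h4
    rw [← h3, h4]
  rw [h2, smul_mul_assoc]
  exact Submodule.smul_mem _ _ (S.fibre_mem hX hYc hY hy hy' hD)

lemma chern_mul_mem (hX : X.dim = 2 * n) (hYc : IsClosed Y) (hY : ConstCycle X.str Y)
    {y : X.X} (hy : y ∈ Y) (hy' : IsClosed {y}) {D : C.CH X} (hD : D ∈ C.gr X 1) (hDV : D ∈ V)
    (hgen : S.GenericFor D) :
    (c 2).val X * L ^ (n - 1) * D ^ (n - 1) ∈ C.line y := by
  have hle : Submodule.span ℚ (Set.range fun i => C.push (S.N i).ζ 1) ≤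
      (C.line y).comap (LinearMap.mulRight ℚ (D ^ (n - 1))) := by
    rw [Submodule.span_le]
    rintro _ ⟨i, rfl⟩
    rw [SetLike.mem_coe, Submodule.mem_comap, LinearMap.mulRight_apply]
    apply (S.N i).mem_line (S.glued i) (S.ruled i) (S.normal i) hD (hgen i) (S.divT i D hDV)
    obtain ⟨e, he⟩ := S.fibreClass i
    rw [he, smul_mul_assoc]
    exact Submodule.smul_mem _ _ (S.fibre_mem hX hYc hY hy hy' hD)
  exact hle S.chernLine

end NodalFibration

section ChernProd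

variable {C : ChowTheory} {X : VarC} {c : ∀ i, NatClass C i}

lemma chernProd_zero (k : ℕ → ℕ) (hk : chernDeg X k = 0) : C.chernProd X c k = 1 := by
  rw [chernDeg, Finset.sum_eq_zero_iff] at hk
  rw [ChowTheory.chernProd]
  apply Finset.prod_eq_one
  intro i hi
  have h1 := hk i hi
  have h2 := (Finset.mem_Icc.mp hi).1
  have h3 : k i = 0 := by
    rcases Nat.mul_eq_zero.mp h1 with h | h
    · omega
    · exact h
  rw [h3, pow_zero]

lemma chernProd_one (h1 : (c 1).val X = 0) (k : ℕ → ℕ) (hk : chernDeg X k = 1) :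
    C.chernProd X c k = 0 := by
  rw [chernDeg] at hk
  have h2 : ∃ i ∈ Finset.Icc 1 X.dim, i * k i ≠ 0 := by
    by_contra h
    push Not at h
    rw [Finset.sum_eq_zero h] at hk
    omega
  obtain ⟨i, hi, hi'⟩ := h2
  have h3 : i * k i ≤ 1 := by
    rw [← hk]
    exact Finset.single_le_sum (f := fun i => i * k i) (fun _ _ => Nat.zero_le _) hi
  have h4 : i ≠ 0 ∧ k i ≠ 0 := by
    constructor
    · rintro rfl
      simp at hi'
    · intro h
      rw [h, mul_zero] at hi'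
      exact hi' rfl
  have h5 : i = 1 := by
    by_contra h
    have h6 : 2 ≤ i := by omega
    have h7 : 1 ≤ k i := by omega
    have : 2 * 1 ≤ i * k i := Nat.mul_le_mul h6 h7
    omega
  rw [ChowTheory.chernProd]
  apply Finset.prod_eq_zero hi
  rw [h5] at h4 ⊢
  rw [h1, zero_pow h4.2]

end ChernProd

end Pool.Agent.Helper912
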