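import Pool.Agent.Helper912_CZ.LightDefs

/-!
# Fibrations whose general degenerate fibres are nodal
-/

open CategoryTheory AlgebraicGeometry Pool.Agent.H914

namespace Pool.Agent.Helper912

/-- The data of a nodal (or cuspidal) degenerate fibre of a fibration of `X` by abelian varieties:
`A` is the locus of nodes, `T` is the normalization of the fibre, a `ℙ¹`-bundle over `A` with
sections `s₀` and `s₁` which are glued by the translation `g`. -/
structure NodalFibre (X : VarC) where
  /-- the locus of nodes -/
  A : VarC
  /-- the normalization of the fibre -/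
  T : VarC
  /-- the projection of the `ℙ¹`-bundle -/
  π : T ⟶ A
  /-- the normalization map -/
  ν : T ⟶ X
  /-- the first section -/
  s₀ : A ⟶ T
  /-- the second section -/
  s₁ : A ⟶ T
  /-- the translation -/
  g : A ≅ A

namespace NodalFibre

variable (C : ChowTheory) {X : VarC} (N : NodalFibre X)

/-- The map from the locus of nodes to `X`. -/
noncomputable def ζ : N.A ⟶ X := N.s₁ ≫ N.ν

/-- `s₀` and `s₁` are sections of `π`, glued by `g`. -/
def Glued : Prop := N.s₀ ≫ N.π = 𝟙 N.A ∧ N.s₁ ≫ N.π = 𝟙 N.A ∧ N.s₀ ≫ N.ν = N.g.hom ≫ N.ζ

/-- The fibre has dimension `n`, and two points of a fibre of `π` are rationally equivalent. -/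
def Ruled (n : ℕ) : Prop := N.A.dim + 1 = n ∧ N.T.dim = n ∧
  ∀ t t' : Pt N.T, ClosedPt t → ClosedPt t' → onPt N.π t = onPt N.π t' → RatEq N.T.str t t'

/-- The class of the normal bundle of the first section. -/
noncomputable def μ : C.CH N.A := C.pull N.s₀ (C.push N.s₀ 1)

/-- The first section does not meet the second one (or at least has trivial intersection with it),
and its normal class is invariant under the translation. -/
def Normal : Prop := C.pull N.s₁ (C.push N.s₀ 1) = 0 ∧ C.pull N.g.hom (N.μ C) = N.μ C

/-- The pull-back to `T` of the divisor class `D` on `X` is `κ` times the class of the first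
section plus a class pulled back from `A`; so `κ` is the degree of `D` on the fibres of `π`. -/
def DivT (D : C.CH X) (κ : ℚ) : Prop :=
  ∃ a, C.pull N.ν D = κ • C.push N.s₀ 1 + C.pull N.π a

end NodalFibre

/-- A fibration of the `2n`-dimensional variety `X` given by the divisor class `L`, with a constant
cycle fibre which meets `Y`, and with finitely many nodal fibres `N i` (those over a general line
in the base), such that `c₂(X) L^{n-1}` is a combination of the classes of their loci of nodes. The
degree of `D ∈ V` on the rational curves in the fibre `N i` is `k i D`. -/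
structure NodalFibration (C : ChowTheory) (X : VarC) (n : ℕ) (c : ∀ i, NatClass C i)
    (V : Submodule ℚ (C.CH X)) (L : C.CH X) (Y : Set (Pt X)) extends BaseMap C X n c L where
  /-- the point of the base over which the fibre is a constant cycle subset -/
  b : Pt B
  closed_b : ClosedPt b
  fibre_b : ConstCycle X.str (onPt f ⁻¹' {b})
  meets : ∃ x ∈ Y, onPt f x = b
  /-- the index set of the nodal fibres -/
  ι : Type
  [fin : Finite ι]
  /-- the nodal fibres -/
  N : ι → NodalFibre X
  /-- the degree of a divisor class on the rational curves in a nodal fibre -/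
  k : ι → (C.CH X →ₗ[ℚ] ℚ)
  glued : ∀ i, (N i).Glued
  ruled : ∀ i, (N i).Ruled n
  normal : ∀ i, (N i).Normal C
  divT : ∀ i, ∀ D ∈ V, (N i).DivT C D (k i D)
  vanish : ∀ i, k i L = 0
  fibreClass : ∀ i, ∃ e : ℚ, C.push (N i).ν 1 = e • C.pull f (C.cl B b)
  chernLine : (c 2).val X * L ^ (n - 1) ∈ Submodule.span ℚ (Set.range fun i => C.push (N i).ζ 1)

attribute [instance] NodalFibration.fin

/-- The divisor class `D` has nonzero degree on the rational curves in the nodal fibres. -/
def NodalFibration.GenericFor {C : ChowTheory} {X : VarC} {n : ℕ} {c : ∀ i, NatClass C i}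
    {V : Submodule ℚ (C.CH X)} {L : C.CH X} {Y : Set (Pt X)}
    (S : NodalFibration C X n c V L Y) (D : C.CH X) : Prop := ∀ i, S.k i D ≠ 0

end Pool.Agent.Helper912
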