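import Pool.Agent.Helper912_CZ.QuotDefs
import Pool.Agent.Helper912_CZ.Chow

/-!
# Zero-cycles on finite covers of rationally chain connected varieties
-/

open CategoryTheory CategoryTheory.Limits AlgebraicGeometry Polynomial Pool.Agent.H914

namespace Pool.Agent.Helper912

/-- A morphism from the affine line to the base of a finite surjective morphism is covered by a
family of zero-cycles. -/
lemma exists_family {X W : Scheme.{0}} (s : X ⟶ Spec (.of ℂ)) (sW : W ⟶ Spec (.of ℂ))
    (π : X ⟶ W) [IsFinite π] [Surjective π] (hπ : π ≫ sW = s) (φ : A1 ⟶ W)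
    (hφ : φ ≫ sW = A1.str) :
    ∃ F : Family s, F.τ ≫ π = Spec.map (CommRingCat.ofHom (algebraMap ℂ[X] F.B)) ≫ φ := by
  have hfin : IsFinite (pullback.fst φ π) := inferInstance
  have hsur : Surjective (pullback.fst φ π) := inferInstance
  have haff : IsAffine (pullback φ π) := isAffine_of_isAffineHom (pullback.fst φ π)
  let e := (pullback φ π).isoSpec
  let R := Γ(pullback φ π, ⊤)
  let ψ : CommRingCat.of ℂ[X] ⟶ R := Spec.preimage (e.inv ≫ pullback.fst φ π)
  have hψ : Spec.map ψ = e.inv ≫ pullback.fst φ π := Spec.map_preimage _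
  have hfin2 : IsFinite (Spec.map ψ) := by rw [hψ]; infer_instance
  have hsur2 : Surjective (Spec.map ψ) := by rw [hψ]; infer_instance
  obtain ⟨q, hq⟩ := hsur2.surj (⟨⊥, Ideal.isPrime_bot⟩ : PrimeSpectrum ℂ[X])
  have hq' : Ideal.comap ψ.hom (q : PrimeSpectrum R).asIdeal = ⊥ :=
    congrArg PrimeSpectrum.asIdeal hq
  have hfin3 : ψ.hom.Finite := (IsFinite.SpecMap_iff ψ).mp hfin2
  let I : Ideal R := (q : PrimeSpectrum R).asIdeal
  have hI : I.IsPrime := (q : PrimeSpectrum R).isPrime
  let θ : ℂ[X] →+* (R ⧸ I) := (Ideal.Quotient.mk I).comp ψ.hom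
  have hθfin : θ.Finite := by
    apply RingHom.Finite.comp
    · exact RingHom.Finite.of_surjective _ Ideal.Quotient.mk_surjective
    · exact hfin3
  let _ : Algebra ℂ[X] (R ⧸ I) := θ.toAlgebra
  let _ : Algebra ℂ (R ⧸ I) := (θ.comp (algebraMap ℂ ℂ[X])).toAlgebra
  have : IsScalarTower ℂ ℂ[X] (R ⧸ I) := IsScalarTower.of_algebraMap_eq' rfl
  have hfin4 : Module.Finite ℂ[X] (R ⧸ I) := hθfin
  let τ : Spec (.of (R ⧸ I)) ⟶ X :=
    Spec.map (CommRingCat.ofHom (Ideal.Quotient.mk I)) ≫ e.inv ≫ pullback.snd φ π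
  have hτ : τ ≫ π = Spec.map (CommRingCat.ofHom (algebraMap ℂ[X] (R ⧸ I))) ≫ φ := by
    have h1 : CommRingCat.ofHom (algebraMap ℂ[X] (R ⧸ I)) =
      ψ ≫ CommRingCat.ofHom (Ideal.Quotient.mk I) := rfl
    rw [h1, Spec.map_comp, hψ]
    simp only [τ, Category.assoc]
    rw [pullback.condition]
  refine ⟨{ B := R ⧸ I, inj := ?_, τ := τ, w := ?_ }, hτ⟩
  · rw [injective_iff_map_eq_zero]
    intro p hp
    have h1 : ψ.hom p ∈ I := Ideal.Quotient.eq_zero_iff_mem.mp hp
    have h2 : p ∈ Ideal.comap ψ.hom I := h1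
    rw [hq'] at h2
    exact h2
  · rw [← hπ, ← Category.assoc, hτ, Category.assoc, hφ, A1.str, ← Spec.map_comp]
    rfl

section Orbit

variable (C : ChowTheory) {X : SmVar.{0} ℂ} {G : Type} [Group G] [Finite G] (ρ : Action G X)

/-- The automorphism of the scheme `X` given by an element of the group. -/
noncomputable def actS {X : VarC} {G : Type} [Group G] (ρ : Action G X) (g : G) :
    X.X ⟶ X.X := (ρ g).hom.hom

omit [Finite G] in
lemma act_mul (g h : G) (x : X.X) : actS ρ (g * h) x = actS ρ g (actS ρ h x) := by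
  simp only [actS, map_mul, Aut.Aut_mul_def]
  exact Scheme.Hom.comp_apply (ρ h).hom.hom (ρ g).hom.hom x

omit [Finite G] in
lemma act_one (x : X.X) : actS ρ 1 x = x := by
  simp only [actS, map_one]
  rfl

omit [Finite G] in
lemma act_w (g : G) : actS ρ g ≫ X.str = X.str := (ρ g).hom.w

omit [Finite G] in
lemma isClosed_act (g : G) {x : X.X} (hx : IsClosed {x}) : IsClosed {actS ρ g x} := by
  have : IsIso (actS ρ g) := ChowTheory.isIso_hom (ρ g)
  have h := (actS ρ g).homeomorph.isClosedMap _ hx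
  rwa [Set.image_singleton] at h

/-- The sum of the classes of the translates of a point. -/
noncomputable def orbSum : (X.X →₀ ℚ) →ₗ[ℚ] C.CH X :=
  ∑ᶠ g : G, (Finsupp.linearCombination ℚ (C.cl X)) ∘ₗ (Finsupp.lmapDomain ℚ ℚ (actS ρ g))

omit [Finite G] in
lemma orbSum_apply [Fintype G] (z : X.X →₀ ℚ) : orbSum C ρ z =
    ∑ g : G, Finsupp.linearCombination ℚ (C.cl X) (z.mapDomain (actS ρ g)) := by
  rw [orbSum, finsum_eq_sum_of_fintype, LinearMap.sum_apply]
  rfl

omit [Finite G] in
lemma orbSum_single [Fintype G] (x : X.X) : orbSum C ρ (Finsupp.single x 1) =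
    ∑ g : G, C.cl X (actS ρ g x) := by
  rw [orbSum_apply]
  apply Finset.sum_congr rfl
  intro g _
  rw [Finsupp.mapDomain_single, Finsupp.linearCombination_single, one_smul]

lemma orbSum_single_act (h : G) (x : X.X) : orbSum C ρ (Finsupp.single (actS ρ h x) 1) =
    orbSum C ρ (Finsupp.single x 1) := by
  classical
  let _ : Fintype G := Fintype.ofFinite _
  rw [orbSum_single, orbSum_single]
  simp_rw [← act_mul]
  exact Fintype.sum_equiv (Equiv.mulRight h) _ _ (fun g => rfl)

lemma orbSum_eq_zero {z : X.X →₀ ℚ} (hz : z ∈ RatZero X.str)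
    (hc : ∀ x ∈ z.support, IsClosed {x}) : orbSum C ρ z = 0 := by
  classical
  let _ : Fintype G := Fintype.ofFinite _
  rw [orbSum_apply]
  apply Finset.sum_eq_zero
  intro g _
  refine (C.zeroCycles X _ ?_).mpr (ratZero_map (actS ρ g) (act_w ρ g) hz)
  intro x hx
  obtain ⟨y, hy, rfl⟩ := Finset.mem_image.mp (Finsupp.mapDomain_support hx)
  exact isClosed_act ρ g (hc y hy)

variable {W : Scheme.{0}} (sW : W ⟶ Spec (.of ℂ)) (π : X.X ⟶ W) [IsFinite π] [Surjective π]
  (hπ : π ≫ sW = X.str) (orbit : ∀ x x' : X.X, π x = π x' ↔ ∃ g : G, actS ρ g x = x')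

include hπ orbit

lemma orbSum_line {φ : A1 ⟶ W} (hφ : φ ≫ sW = A1.str) (a b : ℂ) {x x' : X.X}
    (hx : π x = φ (A1.pt a)) (hx' : π x' = φ (A1.pt b)) :
    orbSum C ρ (Finsupp.single x 1) = orbSum C ρ (Finsupp.single x' 1) := by
  classical
  obtain ⟨F, hF⟩ := exists_family X.str sW π hπ φ hφ
  have key : ∀ (a : ℂ) (x : X.X), π x = φ (A1.pt a) →
      orbSum C ρ (F.fibre a) = (Module.finrank ℂ[X] F.B : ℚ) • orbSum C ρ (Finsupp.single x 1) := by
    intro a x hx
    apply F.map_fibre_of_const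
    intro p
    have h1 : π (F.img a p) = φ (A1.pt a) := by
      let z : Spec (.of F.B) := (PrimeSpectrum.comap (toFib F.B a) p : PrimeSpectrum F.B)
      have e2 : π (F.τ z) = φ (Spec.map (CommRingCat.ofHom (algebraMap ℂ[X] F.B)) z) := by
        rw [← Scheme.Hom.comp_apply, ← Scheme.Hom.comp_apply, hF]
      exact e2.trans (congrArg φ (F.comap_fibre a p))
    obtain ⟨g, hg⟩ := (orbit x (F.img a p)).mp (by rw [h1, hx])
    rw [← hg, orbSum_single_act]
  have h1 : orbSum C ρ (F.fibre a - F.fibre b) = 0 := by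
    apply orbSum_eq_zero
    · exact Submodule.subset_span ⟨F, a, b, rfl⟩
    · intro z hz
      rcases Finset.mem_union.mp (Finsupp.support_sub hz) with h | h
      · obtain ⟨p, rfl⟩ := F.mem_support_fibre h
        exact F.isClosed_img a p
      · obtain ⟨p, rfl⟩ := F.mem_support_fibre h
        exact F.isClosed_img b p
  rw [map_sub, key a x hx, key b x' hx', ← smul_sub] at h1
  have h2 : (Module.finrank ℂ[X] F.B : ℚ) ≠ 0 := by
    have := F.finrank_pos
    positivity
  exact sub_eq_zero.mp ((smul_eq_zero.mp h1).resolve_left h2)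

lemma orbSum_chain {w w' : W} (h : Relation.ReflTransGen (Line sW Set.univ) w w') {x : X.X}
    (hx : π x = w) {x' : X.X} (hx' : π x' = w') :
    orbSum C ρ (Finsupp.single x 1) = orbSum C ρ (Finsupp.single x' 1) := by
  induction h generalizing x' with
  | refl =>
    obtain ⟨g, hg⟩ := (orbit x x').mp (by rw [hx, hx'])
    rw [← hg, orbSum_single_act]
  | tail _ h2 ih =>
    obtain ⟨φ, hφ, -, a, b, rfl, rfl⟩ := h2
    obtain ⟨u, hu⟩ := π.surjective (φ (A1.pt a))
    rw [ih hu, orbSum_line C ρ sW π hπ orbit hφ a b hu hx']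

end Orbit

section Main

variable (C : ChowTheory) {X : SmVar.{0} ℂ} {G : Type} [Group G] [Finite G] (ρ : Action G X)

omit [Finite G] in
lemma push_act_cl (g : G) (x : X.X) : C.push (ρ g).hom (C.cl X x) = C.cl X (actS ρ g x) :=
  C.push_iso_cl (ρ g) x

omit [Finite G] in
lemma push_rho_mul (g h : G) (a : C.CH X) :
    C.push (ρ (g * h)).hom a = C.push (ρ g).hom (C.push (ρ h).hom a) := by
  rw [map_mul, Aut.Aut_mul_def]
  exact C.push_comp (ρ h).hom (ρ g).hom a

omit [Finite G] in
/-- If `Y` is constant cycle and meets its translates by generators of the group, then the class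
of a point of `Y` is invariant. -/
lemma cl_invariant {Y : Set X.X} (hYc : IsClosed Y) (hYr : ConstCycle X.str Y)
    (S : Set G) (hS : Subgroup.closure S = ⊤) (hYS : ∀ g ∈ S, (Y ∩ actS ρ g ⁻¹' Y).Nonempty)
    {y : X.X} (hy : y ∈ Y) (hy' : IsClosed {y}) (g : G) :
    C.push (ρ g).hom (C.cl X y) = C.cl X y := by
  have hg : g ∈ Subgroup.closure S := by rw [hS]; trivial
  induction hg using Subgroup.closure_induction with
  | mem g hg =>
    have hJ : JacobsonSpace X.X := LocallyOfFiniteType.jacobsonSpace X.str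
    obtain ⟨z, ⟨hz1, hz2⟩, hz3⟩ := nonempty_inter_closedPoints (hYS g hg)
      ((hYc.inter (hYc.preimage (actS ρ g).continuous)).isLocallyClosed)
    have h1 : C.cl X y = C.cl X z := C.cl_eq_of_ratEq hy' hz3 (hYr y z hy hz1 hy' hz3)
    have h2 : C.cl X y = C.cl X (actS ρ g z) :=
      C.cl_eq_of_ratEq hy' (isClosed_act ρ g hz3) (hYr y _ hy hz2 hy' (isClosed_act ρ g hz3))
    rw [h1, push_act_cl, ← h2, h1]
  | one => rw [map_one]; exact C.push_id X _
  | mul g h _ _ hg hh => rw [push_rho_mul, hh, hg]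
  | inv g _ hg =>
    conv_lhs => rw [← hg]
    rw [← push_rho_mul, inv_mul_cancel, map_one]
    exact C.push_id X _

/-- Invariant zero-cycles on a finite cover of a rationally chain connected variety. -/
theorem eq_deg_smul_of_invariant
    {W : Scheme.{0}} (sW : W ⟶ Spec (.of ℂ)) (π : X.X ⟶ W) (hq : IsQuotient ρ sW π)
    (hW : RatChainConnected sW Set.univ) {y : X.X} (hy' : IsClosed {y})
    (hy : ∀ g : G, C.push (ρ g).hom (C.cl X y) = C.cl X y)
    {a : C.CH X} (ha : a ∈ C.gr X X.dim) (hinv : ∀ g : G, C.push (ρ g).hom a = a) :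
    a = C.deg X a • C.cl X y := by
  classical
  obtain ⟨_, _, hπ, orbit⟩ := hq
  let _ : Fintype G := Fintype.ofFinite _
  have hcl : ∀ x : X.X, IsClosed {x} → IsClosed {π x} := by
    intro x hx
    have h := π.isClosedMap _ hx
    rwa [Set.image_singleton] at h
  have key : ∑ g : G, C.push (ρ g).hom a = C.deg X a • ∑ g : G, C.cl X (actS ρ g y) := by
    clear hinv
    induction ha using Submodule.span_induction with
    | mem z hz =>
      obtain ⟨x, -, hx, rfl⟩ := hz
      have hx' := isClosed_singleton_of_isCodim hx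
      have h1 := orbSum_chain C ρ sW π hπ orbit
        (hW (π x) (π y) trivial trivial (hcl x hx') (hcl y hy')) rfl rfl
      rw [orbSum_single, orbSum_single] at h1
      rw [C.deg_closed X x hx', one_smul, ← h1]
      exact Finset.sum_congr rfl fun g _ => push_act_cl C ρ g x
    | zero => simp
    | add a b _ _ ha hb => simp only [map_add, Finset.sum_add_distrib, add_smul, ha, hb]
    | smul q a _ ha =>
      simp only [map_smul, ← Finset.smul_sum, smul_eq_mul, mul_smul, ha]
  have h1 : ∑ g : G, C.cl X (actS ρ g y) = (Fintype.card G : ℚ) • C.cl X y := by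
    rw [Finset.sum_congr rfl fun g _ => (push_act_cl C ρ g y).symm.trans (hy g),
      Finset.sum_const, Finset.card_univ, Nat.cast_smul_eq_nsmul]
  have h2 : ∑ g : G, C.push (ρ g).hom a = (Fintype.card G : ℚ) • a := by
    rw [Finset.sum_congr rfl fun g _ => hinv g, Finset.sum_const, Finset.card_univ,
      Nat.cast_smul_eq_nsmul]
  rw [h1, h2, smul_comm] at key
  have h3 : (Fintype.card G : ℚ) ≠ 0 := by
    have := Fintype.card_pos (α := G)
    positivity
  exact smul_right_injective _ h3 key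

end Main

end Pool.Agent.Helper912
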