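import Pool.Agent.Helper912_CZ.Defs

/-!
# Group actions and quotients
-/

open CategoryTheory AlgebraicGeometry Pool.Agent.H914

namespace Pool.Agent.Helper912

/-- An action of the group `G` on the variety `X`. -/
abbrev Action (G : Type) [Group G] (X : VarC) : Type := G →* Aut X

/-- The automorphism of the variety `X` given by an element of the group. -/
noncomputable def act {G : Type} [Group G] {X : VarC} (ρ : Action G X) (g : G) : X ⟶ X :=
  (ρ g).hom

/-- The morphism `π : X → W` is finite and surjective and its fibres are the orbits of the group
`G` acting on `X`; for example `π` is the quotient of `X` by a finite group. -/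
structure IsQuotient {G : Type} [Group G] {X : VarC} (ρ : Action G X) {W : Scheme.{0}}
    (sW : OverC W) (π : X.X ⟶ W) : Prop where
  finite : IsFinite π
  surjective : Surjective π
  w : π ≫ sW = X.str
  orbit : ∀ x x' : Pt X, onS π x = onS π x' ↔ ∃ g : G, onPt (act ρ g) x = x'

end Pool.Agent.Helper912
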