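import Pool.Agent.Helper912_CZ.Defs

/-!
# Rational equivalence of zero-cycles: first properties
-/

open CategoryTheory AlgebraicGeometry Polynomial Pool.Agent.H914

namespace Pool.Agent.Helper912

/-! ## First properties -/

lemma toFib_eq_iff (B : Type) [CommRing B] [Algebra ℂ[X] B] (a : ℂ) (x y : B) :
    toFib B a x = toFib B a y ↔
      x - y ∈ Ideal.span {algebraMap ℂ[X] B (Polynomial.X - C a)} :=
  Ideal.Quotient.eq

lemma toFib_eq_zero_iff (B : Type) [CommRing B] [Algebra ℂ[X] B] (a : ℂ) (x : B) :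
    toFib B a x = 0 ↔ x ∈ Ideal.span {algebraMap ℂ[X] B (Polynomial.X - C a)} :=
  Ideal.Quotient.eq_zero_iff_mem

lemma toFib_surjective (B : Type) [CommRing B] [Algebra ℂ[X] B] (a : ℂ) :
    Function.Surjective (toFib B a) :=
  Ideal.Quotient.mk_surjective

section

variable (B : Type) [CommRing B] [Algebra ℂ[X] B] [Algebra ℂ B] [IsScalarTower ℂ ℂ[X] B]

lemma mk_smul_eval (a : ℂ) (p : ℂ[X]) (x : B) :
    toFib B a (p • x) = (p.eval a) • toFib B a x := by
  have h : (Polynomial.X - C a) ∣ p - C (p.eval a) := X_sub_C_dvd_sub_C_eval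
  obtain ⟨q, hq⟩ := h
  have h2 : p = (Polynomial.X - C a) * q + C (p.eval a) := by rw [← hq]; ring
  have h3 : (p.eval a) • toFib B a x = toFib B a ((p.eval a) • x) := rfl
  rw [h3, toFib_eq_iff, Ideal.mem_span_singleton]
  refine ⟨q • x, ?_⟩
  have h4 : (p.eval a) • x = (C (p.eval a)) • x := (algebraMap_smul ℂ[X] (p.eval a) x).symm
  rw [h4, ← sub_smul, hq]
  simp only [Algebra.smul_def, map_mul]
  ring

variable [Module.Free ℂ[X] B]

/-- The comparison map for the fibre of a free algebra over the affine line. -/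
noncomputable def comb (a : ℂ) :
    (Module.Free.ChooseBasisIndex ℂ[X] B →₀ ℂ) →ₗ[ℂ] Fib B a :=
  Finsupp.linearCombination ℂ (fun i => toFib B a (Module.Free.chooseBasis ℂ[X] B i))

lemma comb_bijective (a : ℂ) : Function.Bijective (comb B a) := by
  set b := Module.Free.chooseBasis ℂ[X] B with hb
  constructor
  · rw [← LinearMap.ker_eq_bot, LinearMap.ker_eq_bot']
    intro c hc
    have h1 : comb B a c = toFib B a (c.sum fun i z => z • b i) := by
      simp only [comb, Finsupp.linearCombination_apply, Finsupp.sum, map_sum]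
      rfl
    rw [h1, toFib_eq_zero_iff, Ideal.mem_span_singleton] at hc
    obtain ⟨y, hy⟩ := hc
    have h2 : (c.sum fun i z => z • b i) = Finsupp.linearCombination ℂ[X] b
        (c.mapRange C (map_zero _)) := by
      rw [Finsupp.linearCombination_apply, Finsupp.sum_mapRange_index (by simp)]
      apply Finsupp.sum_congr
      intro i _
      exact (algebraMap_smul ℂ[X] (c i) (b i)).symm
    have h3 : algebraMap ℂ[X] B (Polynomial.X - C a) * y =
       (Polynomial.X - C a : ℂ[X]) • y := by rw [Algebra.smul_def]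
    rw [h2, h3] at hy
    ext i
    have h4 := congrArg (fun z => (b.repr z i).eval a) hy
    simp only [Module.Basis.repr_linearCombination, map_smul, Finsupp.smul_apply] at h4
    simpa using h4
  · intro z
    obtain ⟨x, rfl⟩ := toFib_surjective B a z
    refine ⟨(b.repr x).mapRange (fun p => p.eval a) (by simp), ?_⟩
    have h1 : x = (b.repr x).sum fun i p => p • b i := by
      conv_lhs => rw [← b.linearCombination_repr x]
      rw [Finsupp.linearCombination_apply]
    conv_rhs => rw [h1]
    rw [comb, Finsupp.linearCombination_apply, Finsupp.sum_mapRange_index (by simp),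
      Finsupp.sum, Finsupp.sum, map_sum]
    apply Finset.sum_congr rfl
    intro i _
    rw [mk_smul_eval]

end

namespace Family

variable {X : Scheme.{0}} {s : X ⟶ Spec (.of ℂ)} (F : Family s)

instance : Module.IsTorsionFree ℂ[X] F.B :=
  Module.isTorsionFree_iff_algebraMap_injective.mpr F.inj

instance : Module.Free ℂ[X] F.B := inferInstance

/-- The fibre of a family, as a vector space. -/
noncomputable def equivQ (a : ℂ) : (Module.Free.ChooseBasisIndex ℂ[X] F.B →₀ ℂ) ≃ₗ[ℂ] Fib F.B a :=
  LinearEquiv.ofBijective (comb F.B a) (comb_bijective F.B a)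

instance (a : ℂ) : Module.Finite ℂ (Fib F.B a) := Module.Finite.equiv (F.equivQ a)

lemma finrank_Q (a : ℂ) : Module.finrank ℂ (Fib F.B a) = Module.finrank ℂ[X] F.B := by
  rw [← (F.equivQ a).finrank_eq, Module.finrank_finsupp_self,
    Module.finrank_eq_card_chooseBasisIndex]

instance (a : ℂ) : IsArtinianRing (Fib F.B a) := IsArtinianRing.of_finite ℂ _

instance (a : ℂ) : Finite (PrimeSpectrum (Fib F.B a)) := inferInstance

/-- The sum of the multiplicities in a fibre is the degree of the family. -/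
lemma sum_mult (a : ℂ) : (∑ᶠ p : PrimeSpectrum (Fib F.B a),
    mult (Fib F.B a) p) = Module.finrank ℂ[X] F.B := by
  classical
  let _ : Fintype (PrimeSpectrum (Fib F.B a)) := Fintype.ofFinite _
  rw [finsum_eq_sum_of_fintype, ← F.finrank_Q a,
    IsArtinianRing.finrank_eq_sum_primeSpectrum (Fib F.B a) ℂ, Nat.cast_sum]
  rfl

lemma map_fibre {M : Type*} [AddCommGroup M] [Module ℚ M] (ψ : (X →₀ ℚ) →ₗ[ℚ] M) (a : ℂ) :
    ψ (F.fibre a) = ∑ᶠ p : PrimeSpectrum (Fib F.B a),
      mult (Fib F.B a) p • ψ (Finsupp.single (F.img a p) 1) := by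
  classical
  let _ : Fintype (PrimeSpectrum (Fib F.B a)) := Fintype.ofFinite _
  rw [fibre, cycleOf, finsum_eq_sum_of_fintype, finsum_eq_sum_of_fintype, map_sum]
  apply Finset.sum_congr rfl
  intro p _
  rw [← map_smul, Finsupp.smul_single, smul_eq_mul, mul_one]

/-- If a linear map takes the same value at all points of a fibre, then its value on the fibre is
the multiple by the degree of the family. -/
lemma map_fibre_of_const {M : Type*} [AddCommGroup M] [Module ℚ M] (ψ : (X →₀ ℚ) →ₗ[ℚ] M) (a : ℂ)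
    (v : M) (h : ∀ p, ψ (Finsupp.single (F.img a p) 1) = v) :
    ψ (F.fibre a) = (Module.finrank ℂ[X] F.B : ℚ) • v := by
  classical
  let _ : Fintype (PrimeSpectrum (Fib F.B a)) := Fintype.ofFinite _
  rw [map_fibre, ← F.sum_mult a, finsum_eq_sum_of_fintype, finsum_eq_sum_of_fintype,
    Finset.sum_smul]
  exact Finset.sum_congr rfl fun p _ => by rw [h p]

lemma finrank_pos : 0 < Module.finrank ℂ[X] F.B := by
  rw [Module.finrank_pos_iff]
  infer_instance

/-- The points of the fibre over `a` lie over the point `a` of the affine line. -/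
lemma comap_fibre (a : ℂ) (p : PrimeSpectrum (Fib F.B a)) :
    (Spec.map (CommRingCat.ofHom (algebraMap ℂ[X] F.B)))
      (PrimeSpectrum.comap (toFib F.B a) p : PrimeSpectrum F.B) = A1.pt a := by
  change (PrimeSpectrum.comap (algebraMap ℂ[X] F.B)
    (PrimeSpectrum.comap (toFib F.B a) p) : PrimeSpectrum ℂ[X]) = _
  have hm : (Ideal.span {(Polynomial.X - C a : ℂ[X])}).IsMaximal :=
    PrincipalIdealRing.isMaximal_of_irreducible (irreducible_X_sub_C a)
  apply PrimeSpectrum.ext
  symm
  apply hm.eq_of_le (PrimeSpectrum.isPrime _).ne_top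
  rw [Ideal.span_singleton_le_iff_mem]
  change toFib F.B a (algebraMap ℂ[X] F.B (Polynomial.X - C a)) ∈ p.asIdeal
  rw [(toFib_eq_zero_iff _ _ _).mpr (Ideal.mem_span_singleton_self _)]
  exact p.asIdeal.zero_mem

/-- The points of the fibres are closed points of `X`. -/
lemma isClosed_img [LocallyOfFiniteType s] (a : ℂ) (p : PrimeSpectrum (Fib F.B a)) :
    IsClosed {F.img a p} := by
  have hJ : JacobsonSpace X := LocallyOfFiniteType.jacobsonSpace s
  have hft : Algebra.FiniteType ℂ F.B :=
    Algebra.FiniteType.trans (S := ℂ[X]) inferInstance inferInstance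
  have h1 : LocallyOfFiniteType (F.τ ≫ s) := by
    rw [F.w, HasRingHomProperty.Spec_iff (P := @LocallyOfFiniteType)]
    exact (RingHom.finiteType_algebraMap (A := ℂ) (B := F.B)).mpr hft
  have h2 : LocallyOfFiniteType F.τ := locallyOfFiniteType_of_comp F.τ s
  have h3 : (PrimeSpectrum.comap (toFib F.B a) p : PrimeSpectrum F.B) ∈
      closedPoints (Spec (.of F.B)) := by
    have h4 : p.asIdeal.IsMaximal := IsArtinianRing.isMaximal_of_isPrime _
    have h5 : (PrimeSpectrum.comap (toFib F.B a) p : PrimeSpectrum F.B).asIdeal.IsMaximal :=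
      Ideal.comap_isMaximal_of_surjective _ (toFib_surjective F.B a)
    exact (PrimeSpectrum.isClosed_singleton_iff_isMaximal _).mpr h5
  exact F.τ.closePoints_subset_preimage_closedPoints h3

/-- The points in the support of a fibre. -/
lemma mem_support_fibre {a : ℂ} {x : X} (hx : x ∈ (F.fibre a).support) :
    ∃ p, F.img a p = x := by
  classical
  let _ : Fintype (PrimeSpectrum (Fib F.B a)) := Fintype.ofFinite _
  rw [fibre, cycleOf, finsum_eq_sum_of_fintype] at hx
  obtain ⟨p, -, hp⟩ := Finset.mem_biUnion.mp (Finsupp.support_finsetSum hx)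
  exact ⟨p, (Finset.mem_singleton.mp (Finsupp.support_single_subset hp)).symm⟩

lemma nonempty_spec (a : ℂ) : Nonempty (PrimeSpectrum (Fib F.B a)) := by
  by_contra h
  rw [not_nonempty_iff] at h
  have h1 := F.sum_mult a
  rw [finsum_of_isEmpty] at h1
  have h2 := F.finrank_pos
  have h3 : Module.finrank ℂ[X] F.B = 0 := by exact_mod_cast h1.symm
  omega

/-- The push-forward of a family along a morphism. -/
noncomputable def map {X' : Scheme.{0}} {s' : X' ⟶ Spec (.of ℂ)} (f : X ⟶ X') (hf : f ≫ s' = s) :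
    Family s' where
  B := F.B
  inj := F.inj
  τ := F.τ ≫ f
  w := by rw [Category.assoc, hf, F.w]

lemma fibre_map {X' : Scheme.{0}} {s' : X' ⟶ Spec (.of ℂ)} (f : X ⟶ X') (hf : f ≫ s' = s)
    (a : ℂ) : (F.map f hf).fibre a = (F.fibre a).mapDomain f := by
  classical
  let _ : Fintype (PrimeSpectrum (Fib F.B a)) := Fintype.ofFinite _
  let _ : Fintype (PrimeSpectrum (Fib (F.map f hf).B a)) := Fintype.ofFinite _
  have h := F.map_fibre (Finsupp.lmapDomain ℚ ℚ f) a
  rw [Finsupp.lmapDomain_apply] at h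
  rw [h, fibre, cycleOf]
  apply finsum_congr
  intro p
  rw [Finsupp.lmapDomain_apply, Finsupp.mapDomain_single, Finsupp.smul_single, smul_eq_mul,
    mul_one]
  rfl

/-- The family of zero-cycles given by a morphism from the affine line. -/
noncomputable def ofLine (φ : A1 ⟶ X) (hφ : φ ≫ s = A1.str) : Family s where
  B := ℂ[X]
  inj := fun _ _ h => h
  τ := φ
  w := hφ

lemma fibre_ofLine (φ : A1 ⟶ X) (hφ : φ ≫ s = A1.str) (a : ℂ) :
    (ofLine φ hφ).fibre a = Finsupp.single (φ (A1.pt a)) 1 := by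
  have h := (ofLine φ hφ).map_fibre_of_const LinearMap.id a (Finsupp.single (φ (A1.pt a)) 1) ?_
  · rw [LinearMap.id_apply] at h
    rw [h]
    have h2 : Module.finrank ℂ[X] (ofLine φ hφ).B = 1 := Module.finrank_self ℂ[X]
    rw [h2, Nat.cast_one, one_smul]
  · intro p
    rw [LinearMap.id_apply]
    congr 1
    have h3 := (ofLine φ hφ).comap_fibre a p
    rw [← h3]
    rfl

end Family

section RatEq

variable {X : Scheme.{0}} {s : X ⟶ Spec (.of ℂ)}

lemma RatEq.refl (x : X) : RatEq s x x := by
  rw [RatEq, sub_self]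
  exact zero_mem _

lemma RatEq.symm {x y : X} (h : RatEq s x y) : RatEq s y x := by
  rw [RatEq] at h ⊢
  have := neg_mem h
  rwa [neg_sub] at this

lemma RatEq.trans {x y z : X} (h : RatEq s x y) (h' : RatEq s y z) : RatEq s x z := by
  rw [RatEq] at h h' ⊢
  have := add_mem h h'
  rwa [sub_add_sub_cancel] at this

lemma Line.ratEq {T : Set X} {x y : X} (h : Line s T x y) : RatEq s x y := by
  obtain ⟨φ, hφ, -, a, b, rfl, rfl⟩ := h
  rw [RatEq, onS, onS, ← Family.fibre_ofLine φ hφ, ← Family.fibre_ofLine φ hφ]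
  exact Submodule.subset_span ⟨_, a, b, rfl⟩

lemma ratEq_of_chain {T : Set X} {x y : X} (h : Relation.ReflTransGen (Line s T) x y) :
    RatEq s x y := by
  induction h with
  | refl => exact RatEq.refl _
  | tail _ h2 ih => exact ih.trans h2.ratEq

lemma RatChainConnected.constCycle {T : Set X} (h : RatChainConnected s T) : ConstCycle s T :=
  fun _ _ hx hy hx' hy' => ratEq_of_chain (h _ _ hx hy hx' hy')

lemma ratZero_map {X' : Scheme.{0}} {s' : X' ⟶ Spec (.of ℂ)} (f : X ⟶ X') (hf : f ≫ s' = s)
    {z : X →₀ ℚ} (hz : z ∈ RatZero s) : z.mapDomain f ∈ RatZero s' := by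
  have : RatZero s ≤ (RatZero s').comap (Finsupp.lmapDomain ℚ ℚ f) := by
    rw [RatZero, Submodule.span_le]
    rintro _ ⟨F, a, b, rfl⟩
    change (F.fibre a - F.fibre b).mapDomain f ∈ RatZero s'
    rw [Finsupp.mapDomain_sub, ← F.fibre_map f hf, ← F.fibre_map f hf]
    exact Submodule.subset_span ⟨_, a, b, rfl⟩
  exact this hz

lemma RatEq.map {X' : Scheme.{0}} {s' : X' ⟶ Spec (.of ℂ)} (f : X ⟶ X') (hf : f ≫ s' = s)
    {x y : X} (h : RatEq s x y) : RatEq s' (f x) (f y) := by
  have := ratZero_map f hf h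
  rwa [Finsupp.mapDomain_sub, Finsupp.mapDomain_single, Finsupp.mapDomain_single] at this

end RatEq

end Pool.Agent.Helper912
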