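import Pool.Agent.Helper912_CZ.StratumDefs
import Pool.Agent.Helper912_CZ.Chow
import Pool.Agent.Helper912_CZ.Alg

/-!
# Zero-cycles on the strata
-/

open CategoryTheory AlgebraicGeometry Pool.Agent.H914

namespace Pool.Agent.Helper912

namespace ChowTheory

variable (C : ChowTheory) {X Y : SmVar.{0} ℂ}

/-- The span of the class of a point. -/
noncomputable def line (y : X.X) : Submodule ℚ (C.CH X) := Submodule.span ℚ {C.cl X y}

lemma isMultiple_iff {y : X.X} (hy : IsClosed {y}) {z : C.CH X} :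
    C.IsMultiple z y ↔ z ∈ C.line y := by
  rw [IsMultiple, line, Submodule.mem_span_singleton]
  constructor
  · intro h
    exact ⟨_, h.symm⟩
  · rintro ⟨a, rfl⟩
    rw [map_smul, C.deg_closed X y hy, smul_eq_mul, mul_one]

/-- The push-forward of a zero-cycle along an automorphism. -/
lemma pull_top {g : X ≅ X} {f : X ⟶ Y}
    (h : ∀ x : X.X, IsClosed {x} → RatEq Y.str (f.hom (g.hom.hom x)) (f.hom x))
    {a : C.CH X} (ha : a ∈ C.gr X X.dim) : C.push f (C.pull g.hom a) = C.push f a := by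
  have key : ∀ b ∈ C.gr X X.dim, C.push f b = C.push f (C.push g.hom b) := by
    intro b hb
    induction hb using Submodule.span_induction with
    | mem z hz =>
      obtain ⟨x, -, hx, rfl⟩ := hz
      have h1 := isClosed_singleton_of_isCodim hx
      have h2 := isClosed_map g.hom h1
      rw [C.push_cl_closed f h1, C.push_cl_closed g.hom h1, C.push_cl_closed f h2]
      exact (C.cl_eq_of_ratEq (isClosed_map f h2) (isClosed_map f h1) (h x h1)).symm
    | zero => simp
    | add a b _ _ ha hb => rw [map_add, map_add, map_add, ha, hb]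
    | smul q a _ ha => rw [map_smul, map_smul, map_smul, ha]
  rw [key _ (C.pull_mem_gr g.hom ha), C.push_iso_pull]

lemma gr_eq_zero {p : ℕ} (hp : X.dim < p) {a : C.CH X} (ha : a ∈ C.gr X p) : a = 0 := by
  induction ha using Submodule.span_induction with
  | mem z hz =>
    exfalso
    obtain ⟨x, -, hx, rfl⟩ := hz
    rw [IsCodim] at hx
    have h1 : (p : ℕ∞) ≤ X.dim := by rw [← hx]; exact le_add_self
    have h2 : p ≤ X.dim := by exact_mod_cast h1
    omega
  | zero => rfl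
  | add a b _ _ ha hb => rw [ha, hb, add_zero]
  | smul q a _ ha => rw [ha, smul_zero]

end ChowTheory

namespace Stratum

variable {C : ChowTheory} {X : SmVar.{0} ℂ} (Z : Stratum C X)

lemma mem_vert {v : C.CH Z.tot} (hv : v ∈ Z.vert) : ∃ w ∈ C.gr Z.base 1, C.pull Z.p w = v := hv

lemma vert_mem {v : C.CH Z.tot} (hv : v ∈ Z.vert) : v ∈ C.gr Z.tot 1 := by
  obtain ⟨w, hw, rfl⟩ := Z.mem_vert hv
  exact C.pull_mem_gr _ hw

lemma pull_g_p (h : Z.OverBase) (i : Z.ι) (γ : C.CH Z.base) :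
    C.pull (Z.g i).hom (C.pull Z.p γ) = C.pull Z.p γ := by
  rw [← C.pull_comp, h i]

lemma prod_mu_mem (h : Z.BranchInv) (l : List Z.ι) :
    (l.map Z.μ).prod ∈ C.gr Z.tot l.length := by
  induction l with
  | nil => simpa using C.one_mem Z.tot
  | cons i l ih =>
    rw [List.map_cons, List.prod_cons, List.length_cons, add_comm]
    exact C.mul_mem_gr (h.1 i) ih

/-- The linear term of the translate of a product of branch classes. -/
noncomputable def linTerm (w : Z.ι → C.CH Z.tot) : List Z.ι → C.CH Z.tot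
  | [] => 0
  | j :: l => w j * (l.map Z.μ).prod + Z.μ j * linTerm w l

lemma linTerm_mem (w : Z.ι → C.CH Z.tot) (hw : ∀ j, w j ∈ Z.vert) (l : List Z.ι) :
    Z.linTerm w l ∈ Submodule.span ℚ {z | ∃ (l' : List Z.ι) (v : C.CH Z.base),
      v ∈ C.gr Z.base 1 ∧ l'.length + 1 = l.length ∧ z = (l'.map Z.μ).prod * C.pull Z.p v} := by
  induction l with
  | nil => exact zero_mem _
  | cons j l ih =>
    rw [linTerm]
    apply add_mem
    · obtain ⟨v, hv, hv'⟩ := Z.mem_vert (hw j)
      apply Submodule.subset_span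
      exact ⟨l, v, hv, rfl, by rw [hv', mul_comm]⟩
    · have : Submodule.span ℚ {z | ∃ (l' : List Z.ι) (v : C.CH Z.base),
          v ∈ C.gr Z.base 1 ∧ l'.length + 1 = l.length ∧ z = (l'.map Z.μ).prod * C.pull Z.p v} ≤
          (Submodule.span ℚ {z | ∃ (l' : List Z.ι) (v : C.CH Z.base),
          v ∈ C.gr Z.base 1 ∧ l'.length + 1 = (j :: l).length ∧
            z = (l'.map Z.μ).prod * C.pull Z.p v}).comap (LinearMap.mulLeft ℚ (Z.μ j)) := by
        rw [Submodule.span_le]
        rintro _ ⟨l', v, hv, hl, rfl⟩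
        apply Submodule.subset_span
        refine ⟨j :: l', v, hv, by simp [hl], ?_⟩
        rw [LinearMap.mulLeft_apply, List.map_cons, List.prod_cons, mul_assoc]
      exact this ih

open Polynomial in
/-- The translates of a product of branch classes form a polynomial. -/
lemma exists_poly_prod (hb : Z.OverBase) (i : Z.ι) (w : Z.ι → C.CH Z.tot)
    (hw : ∀ j, w j ∈ Z.vert) (hμ : ∀ j, C.pull (Z.g i).hom (Z.μ j) = Z.μ j + w j)
    (l : List Z.ι) : ∃ F : (C.CH Z.tot)[X], F.coeff 0 = (l.map Z.μ).prod ∧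
      F.coeff 1 = Z.linTerm w l ∧
      ∀ t : ℕ, (⇑(C.pull (Z.g i).hom))^[t] (l.map Z.μ).prod = F.eval (t : C.CH Z.tot) := by
  have hwi : ∀ j, C.pull (Z.g i).hom (w j) = w j := by
    intro j
    obtain ⟨v, hv, hv'⟩ := Z.mem_vert (hw j)
    rw [← hv', Z.pull_g_p hb]
  have hit : ∀ (j : Z.ι) (t : ℕ), (⇑(C.pull (Z.g i).hom))^[t] (Z.μ j) = Z.μ j + t * w j := by
    intro j t
    induction t with
    | zero => simp
    | succ t ih =>
      rw [Function.iterate_succ_apply', ih, map_add, map_mul, hμ, hwi, map_natCast]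
      push_cast
      ring
  induction l with
  | nil =>
    refine ⟨1, by simp, by simp [linTerm, Polynomial.coeff_one], fun t => ?_⟩
    simp
  | cons j l ih =>
    obtain ⟨F, h0, h1, h2⟩ := ih
    refine ⟨(Polynomial.C (Z.μ j) + Polynomial.X * Polynomial.C (w j)) * F, ?_, ?_,
      fun t => ?_⟩
    · simp [h0, Polynomial.mul_coeff_zero]
    · rw [Polynomial.mul_coeff_one, h0, h1]
      simp [linTerm, Polynomial.coeff_C]
      ring
    · rw [List.map_cons, List.prod_cons, ← AlgHom.coe_pow, map_mul, AlgHom.coe_pow, h2, hit]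
      simp only [Polynomial.eval_mul, Polynomial.eval_add, Polynomial.eval_C, Polynomial.eval_X]

open Polynomial in
/-- The translates of a divisor class form a polynomial. -/
lemma exists_poly_div (hb : Z.OverBase) (i : Z.ι) {h μ v w : C.CH Z.tot} {k : ℚ}
    (hv : v ∈ Z.vert) (hw : w ∈ Z.vert) (hμ : C.pull (Z.g i).hom μ = μ + w)
    (hh : C.pull (Z.g i).hom h = h + k • μ + v) :
    ∃ F : (C.CH Z.tot)[X], F.coeff 0 = h ∧ F.coeff 1 = k • μ + (v - (k / 2) • w) ∧
      ∀ t : ℕ, (⇑(C.pull (Z.g i).hom))^[t] h = F.eval (t : C.CH Z.tot) := by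
  have hvi : ∀ v ∈ Z.vert, C.pull (Z.g i).hom v = v := by
    intro v hv
    obtain ⟨v, hv, hv'⟩ := Z.mem_vert hv
    rw [← hv', Z.pull_g_p hb]
  obtain ⟨m, hm⟩ : ∃ m, m = k • μ + (v - (k / 2) • w) := ⟨_, rfl⟩
  obtain ⟨m', hm'⟩ : ∃ m', m' = (k / 2) • w := ⟨_, rfl⟩
  have h1 : C.pull (Z.g i).hom h = h + m + m' := by
    rw [hh, hm, hm']
    abel
  have h2 : C.pull (Z.g i).hom m' = m' := by rw [hm', map_smul, hvi w hw]
  have h3 : C.pull (Z.g i).hom m = m + (m' + m') := by
    have h4 : m' + m' = k • w := by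
      rw [hm', ← add_smul]
      congr 1
      ring
    rw [h4, hm, map_add, map_smul, map_sub, hμ, hvi v hv, map_smul, hvi w hw, smul_add]
    abel
  refine ⟨Polynomial.C h + Polynomial.X * Polynomial.C m +
    Polynomial.X ^ 2 * Polynomial.C m', ?_, ?_, fun t => ?_⟩
  · simp
  · simp [Polynomial.coeff_C, hm]
  · induction t with
    | zero => simp
    | succ t ih =>
      rw [Function.iterate_succ_apply', ih]
      simp only [Polynomial.eval_add, Polynomial.eval_mul, Polynomial.eval_C, Polynomial.eval_X,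
        Polynomial.eval_pow, map_add, map_mul, map_pow, map_natCast, h1, h2, h3]
      push_cast
      ring

open Polynomial in
lemma coeff_one_pow {A : Type*} [CommRing A] (F : A[X]) (a : ℕ) :
    (F ^ (a + 1)).coeff 1 = (a + 1) * (F.coeff 0) ^ a * F.coeff 1 := by
  induction a with
  | zero => simp
  | succ a ih =>
    rw [pow_succ, Polynomial.mul_coeff_one, ih, Polynomial.coeff_zero_eq_eval_zero (F ^ (a + 1)),
      Polynomial.eval_pow, ← Polynomial.coeff_zero_eq_eval_zero]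
    push_cast
    ring

open Polynomial in
/-- The key relation among the zero-cycles on a stratum. -/
lemma relation (hb : Z.OverBase) (ht : Z.TransRat) (hμ : Z.BranchInv) {D : C.CH X}
    (hD : D ∈ C.gr X 1) {k : Z.ι → ℚ} (hTD : Z.TransDiv D k) (i : Z.ι) (l : List Z.ι)
    (a j : ℕ) (γ : C.CH Z.base) (hγ : γ ∈ C.gr Z.base j)
    (hdeg : a + 1 + l.length + j = Z.tot.dim) :
    ∃ (v : C.CH Z.base) (w : Z.ι → C.CH Z.tot), v ∈ C.gr Z.base 1 ∧ (∀ j, w j ∈ Z.vert) ∧
      (((a : ℚ) + 1) * k i) • C.push Z.ζ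
          (C.pull Z.ζ D ^ a * ((i :: l).map Z.μ).prod * C.pull Z.p γ) +
        ((a : ℚ) + 1) • C.push Z.ζ
          (C.pull Z.ζ D ^ a * (l.map Z.μ).prod * C.pull Z.p (v * γ)) +
        C.push Z.ζ (C.pull Z.ζ D ^ (a + 1) * Z.linTerm w l * C.pull Z.p γ) = 0 := by
  obtain ⟨hμ1, hμ2⟩ := hμ
  set h := C.pull Z.ζ D with hh
  let w : Z.ι → C.CH Z.tot := fun j => C.pull (Z.g i).hom (Z.μ j) - Z.μ j
  have hw : ∀ j, w j ∈ Z.vert := fun j => hμ2 i j
  have hw' : ∀ j, C.pull (Z.g i).hom (Z.μ j) = Z.μ j + w j := fun j => by simp [w]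
  obtain ⟨Fl, hFl0, hFl1, hFl⟩ := Z.exists_poly_prod hb i w hw hw' l
  let v₀ := C.pull (Z.g i).hom h - h - k i • Z.μ i
  have hv₀ : v₀ ∈ Z.vert := hTD i
  have hv₀' : C.pull (Z.g i).hom h = h + k i • Z.μ i + v₀ := by simp [v₀]
  obtain ⟨Fh, hFh0, hFh1, hFh⟩ := Z.exists_poly_div hb i hv₀ (hw i) (hw' i) hv₀'
  have hv₁ : v₀ - (k i / 2) • w i ∈ Z.vert := sub_mem hv₀ (Submodule.smul_mem _ _ (hw i))
  obtain ⟨v, hv, hv'⟩ := Z.mem_vert hv₁
  refine ⟨v, w, hv, hw, ?_⟩
  let x := h ^ (a + 1) * (l.map Z.μ).prod * C.pull Z.p γ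
  have hx : x ∈ C.gr Z.tot Z.tot.dim := by
    rw [← hdeg]
    refine C.mul_mem_gr (C.mul_mem_gr ?_ (Z.prod_mu_mem ⟨hμ1, hμ2⟩ l)) (C.pull_mem_gr _ hγ)
    have := C.pow_mem_gr (C.pull_mem_gr Z.ζ hD) (a + 1)
    rwa [mul_one] at this
  have hiter : ∀ t : ℕ, (⇑(C.pull (Z.g i).hom))^[t] x ∈ C.gr Z.tot Z.tot.dim ∧
      C.push Z.ζ ((⇑(C.pull (Z.g i).hom))^[t] x) = C.push Z.ζ x := by
    intro t
    induction t with
    | zero => exact ⟨hx, rfl⟩
    | succ t ih =>
      rw [Function.iterate_succ_apply']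
      exact ⟨C.pull_mem_gr _ ih.1, (C.pull_top (ht i) ih.1).trans ih.2⟩
  have hγt : ∀ t : ℕ, (⇑(C.pull (Z.g i).hom))^[t] (C.pull Z.p γ) = C.pull Z.p γ := by
    intro t
    induction t with
    | zero => rfl
    | succ t ih => rw [Function.iterate_succ_apply', ih, Z.pull_g_p hb]
  let F := Fh ^ (a + 1) * Fl * Polynomial.C (C.pull Z.p γ)
  have hF : ∀ t : ℕ, C.push Z.ζ (F.eval (t : C.CH Z.tot)) = C.push Z.ζ x := by
    intro t
    rw [← (hiter t).2]
    congr 1
    simp only [F, x, Polynomial.eval_mul, Polynomial.eval_pow, Polynomial.eval_C]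
    rw [← hFh, ← hFl]
    rw [← AlgHom.coe_pow, map_mul, map_mul, map_pow, AlgHom.coe_pow, hγt]
  have h1 := coeff_one_eq_zero (C.push Z.ζ) F _ hF
  have h2 : F.coeff 1 = ((a : ℚ) + 1) • (h ^ a * (k i • Z.μ i) * (l.map Z.μ).prod * C.pull Z.p γ) +
      ((a : ℚ) + 1) • (h ^ a * (l.map Z.μ).prod * C.pull Z.p (v * γ)) +
      h ^ (a + 1) * Z.linTerm w l * C.pull Z.p γ := by
    simp only [F]
    rw [Polynomial.coeff_mul_C, Polynomial.mul_coeff_one, coeff_one_pow, hFh0, hFh1, hFl0, hFl1,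
      Polynomial.coeff_zero_eq_eval_zero, Polynomial.eval_pow,
      ← Polynomial.coeff_zero_eq_eval_zero, hFh0, ← hv', map_mul]
    simp only [Algebra.smul_def, map_add, map_natCast, map_one]
    ring
  rw [h2, map_add, map_add, map_smul, map_smul] at h1
  rw [← h1]
  congr 2
  rw [mul_smul]
  congr 1
  rw [← map_smul]
  congr 1
  rw [List.map_cons, List.prod_cons]
  simp only [Algebra.smul_def]
  ring

/-- The zero-cycles `ζ_*(h^a μ^l p^*γ)` with `2 a + |l| ≤ N₀ ≤ 2 d` lie in a submodule `W` as soon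
as this holds for `ζ_*(h^d p^*γ)` in case `N₀ = 2 d`. -/
lemma mem_of_good (hb : Z.OverBase) (ht : Z.TransRat) (hμ : Z.BranchInv) {D : C.CH X}
    (hD : D ∈ C.gr X 1) {k : Z.ι → ℚ} (hk : ∀ i, k i ≠ 0) (hTD : Z.TransDiv D k) {d : ℕ}
    (hd : Z.tot.dim = Z.base.dim + d) (W : Submodule ℚ (C.CH X)) (N₀ : ℕ) (hN₀ : N₀ ≤ 2 * d)
    (hgood : N₀ = 2 * d → ∀ γ ∈ C.gr Z.base Z.base.dim,
      C.push Z.ζ (C.pull Z.ζ D ^ d * C.pull Z.p γ) ∈ W)
    (N : ℕ) (hN : N ≤ N₀) (n : ℕ) (l : List Z.ι)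
    (hl : l.length = n) (a j : ℕ) (γ : C.CH Z.base) (hγ : γ ∈ C.gr Z.base j)
    (hdeg : a + l.length + j = Z.tot.dim) (haN : 2 * a + l.length = N) :
    C.push Z.ζ (C.pull Z.ζ D ^ a * (l.map Z.μ).prod * C.pull Z.p γ) ∈ W := by
  induction N using Nat.strong_induction_on generalizing n l a j γ with
  | _ N ihN =>
  induction n using Nat.strong_induction_on generalizing l a j γ with
  | _ n ihn =>
  match l, hl, hdeg, haN with
  | [], hl, hdeg, haN =>
    simp only [List.length_nil, add_zero] at hdeg haN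
    by_cases had : a = d
    · subst had
      have hj : j = Z.base.dim := by omega
      subst hj
      have := hgood (by omega) γ hγ
      simpa using this
    · have hj : Z.base.dim < j := by omega
      rw [C.gr_eq_zero hj hγ]
      simp
  | i :: l, hl, hdeg, haN =>
    simp only [List.length_cons] at hl hdeg haN
    obtain ⟨v, w, hv, hw, hrel⟩ := Z.relation hb ht hμ hD hTD i l a j γ hγ (by omega)
    have h2 : C.push Z.ζ (C.pull Z.ζ D ^ a * (l.map Z.μ).prod * C.pull Z.p (v * γ)) ∈ W := by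
      apply ihN (2 * a + l.length) (by omega) (by omega) l.length l rfl a (1 + j) (v * γ)
        (C.mul_mem_gr hv hγ) (by omega) rfl
    have h3 : C.push Z.ζ (C.pull Z.ζ D ^ (a + 1) * Z.linTerm w l * C.pull Z.p γ) ∈ W := by
      have hle : Submodule.span ℚ {z | ∃ (l' : List Z.ι) (v : C.CH Z.base),
          v ∈ C.gr Z.base 1 ∧ l'.length + 1 = l.length ∧ z = (l'.map Z.μ).prod * C.pull Z.p v} ≤
          W.comap (C.push Z.ζ ∘ₗ LinearMap.mulRight ℚ (C.pull Z.p γ) ∘ₗ
            LinearMap.mulLeft ℚ (C.pull Z.ζ D ^ (a + 1))) := by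
        rw [Submodule.span_le]
        rintro _ ⟨l', v', hv', hl', rfl⟩
        simp only [Submodule.comap_coe, LinearMap.coe_comp, Set.mem_preimage,
          Function.comp_apply, LinearMap.mulLeft_apply, LinearMap.mulRight_apply,
          SetLike.mem_coe]
        have := ihn l'.length (by omega) l' rfl (a + 1) (1 + j) (v' * γ)
          (C.mul_mem_gr hv' hγ) (by omega) (by omega)
        rw [map_mul (C.pull Z.p)] at this
        convert this using 2
        ring
      exact hle (Z.linTerm_mem w hw l)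
    have h4 : (((a : ℚ) + 1) * k i) • C.push Z.ζ
        (C.pull Z.ζ D ^ a * ((i :: l).map Z.μ).prod * C.pull Z.p γ) ∈ W := by
      have h5 := eq_neg_of_add_eq_zero_left ((add_assoc _ _ _).symm.trans hrel)
      rw [h5]
      exact neg_mem (add_mem (Submodule.smul_mem _ _ h2) h3)
    have h6 : ((a : ℚ) + 1) * k i ≠ 0 := mul_ne_zero (by positivity) (hk i)
    have h7 := Submodule.smul_mem _ (((a : ℚ) + 1) * k i)⁻¹ h4
    rwa [smul_smul, inv_mul_cancel₀ h6, one_smul] at h7

end Stratum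

end Pool.Agent.Helper912
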