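import Pool.Agent.Helper912_CZ.Defs

/-!
# Strata of degenerate fibres of a Lagrangian fibration
-/

open CategoryTheory AlgebraicGeometry Pool.Agent.H914

namespace Pool.Agent.Helper912

/-- A family `p : tot → base` of (possibly degenerate) abelian varieties with a morphism `ζ` to
`X`, with automorphisms `g i` (translations) and divisor classes `μ i` on `tot` (the classes of
the branches of the discriminant). -/
structure Stratum (C : ChowTheory) (X : VarC) where
  /-- the base of the family -/
  base : VarC
  /-- the total space of the family -/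
  tot : VarC
  /-- the structure morphism of the family -/
  p : tot ⟶ base
  /-- the morphism to `X` -/
  ζ : tot ⟶ X
  /-- the index set of the branches -/
  ι : Type
  /-- the translations -/
  g : ι → (tot ≅ tot)
  /-- the classes of the branches -/
  μ : ι → C.CH tot

namespace Stratum

variable {C : ChowTheory} {X : VarC} (Z : Stratum C X)

/-- The divisor classes on the total space which are pulled back from the base. -/
noncomputable def vert : Submodule ℚ (C.CH Z.tot) :=
  (C.gr Z.base 1).map (C.pull Z.p).toLinearMap

/-- The translations are automorphisms over the base. -/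
def OverBase : Prop := ∀ i, (Z.g i).hom ≫ Z.p = Z.p

/-- The images in `X` of a point and of its translate are rationally equivalent. -/
def TransRat : Prop := ∀ (i : Z.ι) (x : Pt Z.tot), ClosedPt x →
  RatEq X.str (onPt Z.ζ (onPt (Z.g i).hom x)) (onPt Z.ζ x)

/-- The classes `μ i` are divisor classes which are invariant under the translations, up to
classes pulled back from the base. -/
def BranchInv : Prop := (∀ i, Z.μ i ∈ C.gr Z.tot 1) ∧
  ∀ i j, C.pull (Z.g i).hom (Z.μ j) - Z.μ j ∈ Z.vert

/-- The difference between the translate of the divisor class `ζ^* D` and `ζ^* D` is `k i` times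
the class `μ i`, up to classes pulled back from the base. -/
def TransDiv (D : C.CH X) (k : Z.ι → ℚ) : Prop :=
  ∀ i, C.pull (Z.g i).hom (C.pull Z.ζ D) - C.pull Z.ζ D - k i • Z.μ i ∈ Z.vert

/-- The span of the classes of codimension `e` on the total space which are products of classes
`μ i` and a class pulled back from the base. -/
noncomputable def taut (e : ℕ) : Submodule ℚ (C.CH Z.tot) :=
  Submodule.span ℚ {z | ∃ (l : List Z.ι) (j : ℕ) (γ : C.CH Z.base), γ ∈ C.gr Z.base j ∧
    l.length + j = e ∧ z = (l.map Z.μ).prod * C.pull Z.p γ}

/-- The top power of the divisor class `D` on every fibre of the family is a multiple of the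
class of `y`; here `d` is the dimension of the fibres. -/
def FibreMultiple (d : ℕ) (D : C.CH X) (y : Pt X) : Prop :=
  ∀ γ ∈ C.gr Z.base Z.base.dim,
    C.IsMultiple (C.push Z.ζ (C.pull Z.ζ D ^ d * C.pull Z.p γ)) y

/-- The base has trivial group of zero-cycles, and some fibre of the family is mapped to a constant
cycle subset of `X` which meets `Y`. -/
def RatBase (Y : Set (Pt X)) : Prop := ConstCycle Z.base.str Set.univ ∧
  ∃ b : Pt Z.base, ClosedPt b ∧ ConstCycle X.str (onPt Z.ζ '' (onPt Z.p ⁻¹' {b})) ∧
    ∃ x : Pt Z.tot, onPt Z.p x = b ∧ onPt Z.ζ x ∈ Y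

end Stratum

/-- The data of a nodal degeneration: the fibres of the family `Z'` are the loci of nodes of
degenerate fibres of the family `Z`, whose normalizations form a family of `ℙ¹`-bundles over the
fibres of `Z'`, with total space `T`, on which two sections are glued by a translation. -/
structure NodalData {C : ChowTheory} {X : VarC} (Z Z' : Stratum C X) where
  /-- the total space of the `ℙ¹`-bundle -/
  T : VarC
  /-- the projection of the `ℙ¹`-bundle -/
  π : T ⟶ Z'.tot
  /-- the normalization map -/
  ν : T ⟶ Z.tot
  /-- the first section -/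
  s₀ : Z'.tot ⟶ T
  /-- the second section -/
  s₁ : Z'.tot ⟶ T
  /-- the map on the bases -/
  φ : Z'.base ⟶ Z.base
  /-- the branch along which the degeneration takes place -/
  i : Z'.ι

namespace NodalData

variable {C : ChowTheory} {X : VarC} {Z Z' : Stratum C X} (N : NodalData Z Z')

/-- `s₀` and `s₁` are sections of `π`. -/
def Sections : Prop := N.s₀ ≫ N.π = 𝟙 Z'.tot ∧ N.s₁ ≫ N.π = 𝟙 Z'.tot

/-- The second section gives the map `ζ` of `Z'`, and the first one its translate. -/
def Glued : Prop := N.s₁ ≫ N.ν ≫ Z.ζ = Z'.ζ ∧ N.s₀ ≫ N.ν ≫ Z.ζ = (Z'.g N.i).hom ≫ Z'.ζ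

/-- Two points of a fibre of `π` are rationally equivalent. -/
def Ruled : Prop := N.T.dim = Z'.tot.dim + 1 ∧
  ∀ t t' : Pt N.T, ClosedPt t → ClosedPt t' → onPt N.π t = onPt N.π t' → RatEq N.T.str t t'

/-- The first section meets the second one only over a divisor of the base of `Z'`, if at all. -/
def Cross : Prop := C.pull N.s₁ (C.push N.s₀ 1) ∈ Z'.vert

/-- The pull-back to `T` of a divisor class `D` on `X` is a multiple of the class of the first
section plus a class pulled back from `Z'`; the factor is `κ`. -/
def DivT (D : C.CH X) (κ : ℚ) : Prop :=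
  ∃ a, C.pull (N.ν ≫ Z.ζ) D = κ • C.push N.s₀ 1 + C.pull N.π a

/-- The push-forward of a fibre of the family `T` is a fixed nonzero multiple of the corresponding
fibre of `Z`. -/
def FibreClass : Prop := ∃ e : ℚ, e ≠ 0 ∧ ∀ γ ∈ C.gr Z'.base Z'.base.dim,
  C.push N.ν (C.pull N.π (C.pull Z'.p γ)) = e • C.pull Z.p (C.push N.φ γ)

/-- The nodal degeneration has the properties above. -/
def Valid : Prop := N.Sections ∧ N.Glued ∧ N.Ruled ∧ N.Cross ∧ N.FibreClass

end NodalData

end Pool.Agent.Helper912
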